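import Pool.Agent.Run7.h777.Free

/-!
# The complement of the image of a controlled functor is uniformly finitely generated
-/

set_option autoImplicit false

namespace Run7.h777

variable {k R : Type} [Field k] [Ring R] [Algebra k R] {n : ℕ}
  (ρ : R →ₐ[k] Matrix (Fin n) (Fin n) (FreeAlgebra k (Fin 2)))

theorem exists_fd_sub (q : ℕ) (X : Rep k) (hX : Nil q X) (U0 : Submodule k X.V)
    [Module.Finite k U0] :
    ∃ (Y : Rep k) (_ : Module.Finite k Y.V) (ι : Rep.Hom Y X), Function.Injective ι.f ∧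
      ∀ u ∈ U0, u ∈ LinearMap.range ι.f := by
  let U : Submodule k X.V := ⨆ w : Wd q, U0.map (opw X w.1)
  have hU : ∀ i, ∀ u ∈ U, X.op i u ∈ U := by
    intro i
    have : U ≤ U.comap (X.op i) := by
      refine iSup_le fun w => ?_
      rintro _ ⟨u, hu, rfl⟩
      change X.op i (opw X w.1 u) ∈ U
      rw [← opw_cons]
      by_cases h : (i :: w.1).length ≤ q
      · exact Submodule.mem_iSup_of_mem (⟨i :: w.1, h⟩ : Wd q) ⟨u, hu, rfl⟩
      · rw [opw_zero_of_length X q hX _ (not_le.1 h)]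
        exact zero_mem _
    exact fun u hu => this hu
  have fU : Module.Finite k U := inferInstance
  refine ⟨{ V := U, op := fun i => (X.op i).restrict (hU i) }, fU,
    { f := U.subtype, comm := fun i v => rfl }, U.subtype_injective, fun u hu => ?_⟩
  have h1 : u ∈ U := Submodule.mem_iSup_of_mem (⟨[], by simp⟩ : Wd q) ⟨u, hu, rfl⟩
  exact ⟨⟨u, h1⟩, rfl⟩

instance (X : Rep k) [Module.Finite k X.V] : Module.Finite k (Fob ρ X) :=
  inferInstanceAs (Module.Finite k (Fin n → X.V))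

/-- coordinates -/
def prj (X : Rep k) (i : Fin n) : Fob ρ X →ₗ[k] X.V :=
  (LinearMap.proj i : (Fin n → X.V) →ₗ[k] X.V)

theorem Fmap_injective {X Y : Rep k} (g : Rep.Hom X Y) (hg : Function.Injective g.f) :
    Function.Injective (Fmap ρ g) := by
  intro v w h
  funext i
  apply hg
  exact congrFun h i

theorem factor {q : ℕ} {X : Rep k} (hX : Nil q X) (Z : Rep k) [Module.Finite k Z.V]
    (f : Fob ρ Z →ₗ[R] Fob ρ X) (U1 : Submodule k X.V) [Module.Finite k U1] :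
    ∃ (Y : Rep k) (_ : Module.Finite k Y.V) (ι : Rep.Hom Y X), Function.Injective ι.f ∧
      (∀ u ∈ U1, u ∈ LinearMap.range ι.f) ∧
      ∃ f0 : Fob ρ Z →ₗ[R] Fob ρ Y, f = Fmap ρ ι ∘ₗ f0 := by
  let fk : Fob ρ Z →ₗ[k] Fob ρ X := f.restrictScalars k
  let U0 : Submodule k X.V := U1 ⊔ ⨆ i : Fin n, LinearMap.range (prj ρ X i ∘ₗ fk)
  obtain ⟨Y, hY, ι, hι, hr⟩ := exists_fd_sub q X hX U0
  refine ⟨Y, hY, ι, hι, fun u hu => hr u (Submodule.mem_sup_left hu), ?_⟩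
  have hmem : ∀ (v : Fob ρ Z) (i : Fin n), f v i ∈ LinearMap.range ι.f := by
    intro v i
    apply hr
    apply Submodule.mem_sup_right
    exact Submodule.mem_iSup_of_mem i ⟨v, rfl⟩
  let e := LinearEquiv.ofInjective ι.f hι
  let g : Fob ρ Z → Fob ρ Y := fun v i => e.symm ⟨f v i, hmem v i⟩
  have key : ∀ v, Fmap ρ ι (g v) = f v := by
    intro v
    funext i
    rw [Fmap_apply]
    change ((e (e.symm ⟨f v i, hmem v i⟩) : LinearMap.range ι.f) : X.V) = _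
    rw [LinearEquiv.apply_symm_apply]
  have inj := Fmap_injective ρ ι hι
  refine ⟨{ toFun := g, map_add' := ?_, map_smul' := ?_ }, ?_⟩
  · intro v w
    apply inj
    rw [map_add, key, key, key, map_add]
  · intro r v
    apply inj
    rw [RingHom.id_apply, map_smul, key, key, map_smul]
  · apply LinearMap.ext
    intro v
    exact (key v).symm

theorem Fmap_comp {X Y Z : Rep k} (g : Rep.Hom Y Z) (f : Rep.Hom X Y) :
    Fmap ρ (g.comp f) = Fmap ρ g ∘ₗ Fmap ρ f := rfl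

theorem Fmap_zero (X Y : Rep k) : Fmap ρ (Rep.Hom.zero X Y) = 0 := rfl

/-- the data in the definition of `Controlled` -/
structure Ctl where
  /-- the complement of the image of the functor -/
  N : ∀ X Y : Rep k, Set (Fob ρ X →ₗ[R] Fob ρ Y)
  add : ∀ (X Y : Rep k) [Module.Finite k X.V] [Module.Finite k Y.V],
      ∀ f ∈ N X Y, ∀ g ∈ N X Y, f + g ∈ N X Y
  left : ∀ (X Y Z : Rep k) [Module.Finite k X.V] [Module.Finite k Y.V] [Module.Finite k Z.V]
      (g : Fob ρ Y →ₗ[R] Fob ρ Z), ∀ f ∈ N X Y, g ∘ₗ f ∈ N X Z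
  right : ∀ (X Y Z : Rep k) [Module.Finite k X.V] [Module.Finite k Y.V] [Module.Finite k Z.V]
      (g : Fob ρ X →ₗ[R] Fob ρ Y), ∀ f ∈ N Y Z, f ∘ₗ g ∈ N X Z
  dec : ∀ (X Y : Rep k) [Module.Finite k X.V] [Module.Finite k Y.V]
      (f : Fob ρ X →ₗ[R] Fob ρ Y), ∃! g : Rep.Hom X Y, f - Fmap ρ g ∈ N X Y

variable {ρ} (S : Ctl ρ)

theorem Ctl.zero (X Y : Rep k) [Module.Finite k X.V] [Module.Finite k Y.V] :
    (0 : Fob ρ X →ₗ[R] Fob ρ Y) ∈ S.N X Y := by
  obtain ⟨g, hg, -⟩ := S.dec X Y 0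
  have := S.left X Y Y 0 _ hg
  simpa using this

theorem Ctl.neg (X Y : Rep k) [Module.Finite k X.V] [Module.Finite k Y.V]
    (f : Fob ρ X →ₗ[R] Fob ρ Y) (hf : f ∈ S.N X Y) : -f ∈ S.N X Y := by
  have := S.left X Y Y (-LinearMap.id) _ hf
  have e : (-LinearMap.id : Fob ρ Y →ₗ[R] Fob ρ Y) ∘ₗ f = -f := by
    apply LinearMap.ext
    intro v
    simp
  rwa [e] at this

/-- the extension of the ideal to all nilpotent modules -/
def Ctl.inf (q : ℕ) (X : Rep k) : Set (Fob ρ (Pr k q) →ₗ[R] Fob ρ X) :=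
  {f | ∃ (Y : Rep k) (_ : Module.Finite k Y.V) (h : Rep.Hom Y X), ∃ m ∈ S.N (Pr k q) Y,
    f = Fmap ρ h ∘ₗ m}

theorem Ctl.inf_post {q : ℕ} {X Y : Rep k} (h : Rep.Hom X Y)
    {f : Fob ρ (Pr k q) →ₗ[R] Fob ρ X} (hf : f ∈ S.inf q X) : Fmap ρ h ∘ₗ f ∈ S.inf q Y := by
  obtain ⟨Z, hZ, g, m, hm, rfl⟩ := hf
  exact ⟨Z, hZ, h.comp g, m, hm, rfl⟩

theorem Ctl.inf_pre {q : ℕ} {X : Rep k} {f : Fob ρ (Pr k q) →ₗ[R] Fob ρ X} (hf : f ∈ S.inf q X)
    (g : Fob ρ (Pr k q) →ₗ[R] Fob ρ (Pr k q)) : f ∘ₗ g ∈ S.inf q X := by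
  obtain ⟨Z, hZ, h, m, hm, rfl⟩ := hf
  exact ⟨Z, hZ, h, m ∘ₗ g, S.right _ _ _ _ _ hm, rfl⟩

theorem Ctl.inf_neg {q : ℕ} {X : Rep k} {f : Fob ρ (Pr k q) →ₗ[R] Fob ρ X}
    (hf : f ∈ S.inf q X) : -f ∈ S.inf q X := by
  obtain ⟨Z, hZ, h, m, hm, rfl⟩ := hf
  refine ⟨Z, hZ, h, -m, S.neg _ _ _ hm, ?_⟩
  apply LinearMap.ext
  intro v
  simp

/-- direct sum of two modules -/
def Rep.prod (X Y : Rep k) : Rep k where
  V := X.V × Y.V
  op i := (X.op i).prodMap (Y.op i)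

instance (X Y : Rep k) [Module.Finite k X.V] [Module.Finite k Y.V] :
    Module.Finite k (X.prod Y).V := inferInstanceAs (Module.Finite k (X.V × Y.V))

theorem Ctl.inf_add {q : ℕ} {X : Rep k} {f g : Fob ρ (Pr k q) →ₗ[R] Fob ρ X}
    (hf : f ∈ S.inf q X) (hg : g ∈ S.inf q X) : f + g ∈ S.inf q X := by
  obtain ⟨Y, hY, h, m, hm, rfl⟩ := hf
  obtain ⟨Z, hZ, h', m', hm', rfl⟩ := hg
  let i1 : Rep.Hom Y (Y.prod Z) :=
    { f := (LinearMap.inl k Y.V Z.V : Y.V →ₗ[k] Y.V × Z.V), comm := fun i v => by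
        change ((Y.op i v, (0 : Z.V)) : Y.V × Z.V) = (Y.op i v, Z.op i 0)
        rw [map_zero] }
  let i2 : Rep.Hom Z (Y.prod Z) :=
    { f := (LinearMap.inr k Y.V Z.V : Z.V →ₗ[k] Y.V × Z.V), comm := fun i v => by
        change (((0 : Y.V), Z.op i v) : Y.V × Z.V) = (Y.op i 0, Z.op i v)
        rw [map_zero] }
  let c : Rep.Hom (Y.prod Z) X :=
    { f := (LinearMap.coprod h.f h'.f : Y.V × Z.V →ₗ[k] X.V), comm := fun i v => by
        change h.f (Y.op i v.1) + h'.f (Z.op i v.2) = X.op i (h.f v.1 + h'.f v.2)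
        rw [h.comm, h'.comm, map_add] }
  refine ⟨Y.prod Z, inferInstance, c, Fmap ρ i1 ∘ₗ m + Fmap ρ i2 ∘ₗ m',
    S.add _ _ _ (S.left _ _ _ _ _ hm) _ (S.left _ _ _ _ _ hm'), ?_⟩
  have e1 : c.comp i1 = h := Rep.Hom.ext' fun v => by
    change h.f v + h'.f 0 = h.f v
    rw [map_zero, add_zero]
  have e2 : c.comp i2 = h' := Rep.Hom.ext' fun v => by
    change h.f 0 + h'.f v = h'.f v
    rw [map_zero, zero_add]
  rw [LinearMap.comp_add, ← LinearMap.comp_assoc, ← LinearMap.comp_assoc, ← Fmap_comp,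
    ← Fmap_comp, e1, e2]

theorem Ctl.inf_sub {q : ℕ} {X : Rep k} {f g : Fob ρ (Pr k q) →ₗ[R] Fob ρ X}
    (hf : f ∈ S.inf q X) (hg : g ∈ S.inf q X) : f - g ∈ S.inf q X := by
  rw [sub_eq_add_neg]
  exact S.inf_add hf (S.inf_neg hg)

/-- uniqueness -/
theorem Ctl.inf_hat {q : ℕ} {X : Rep k} (hX : Nil q X) (v : X.V)
    (h : Fmap ρ (hat hX v) ∈ S.inf q X) : v = 0 := by
  obtain ⟨Y, hY, h, m, hm, e⟩ := h
  let U : Submodule k X.V := LinearMap.range h.f ⊔ Submodule.span k {v}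
  obtain ⟨Z, hZ, ι, hι, hr⟩ := exists_fd_sub q X hX U
  have hZn : Nil q Z := by
    intro w hw z
    apply hι
    rw [hom_opw, hX w hw, map_zero]
  obtain ⟨v', hv'⟩ := hr v (Submodule.mem_sup_right (Submodule.mem_span_singleton_self v))
  have hmem : ∀ y, h.f y ∈ LinearMap.range ι.f := fun y => hr _ (Submodule.mem_sup_left ⟨y, rfl⟩)
  let E := LinearEquiv.ofInjective ι.f hι
  let g0 : Y.V →ₗ[k] Z.V := E.symm.toLinearMap ∘ₗ (h.f.codRestrict (LinearMap.range ι.f) hmem)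
  have hg0 : ∀ y, ι.f (g0 y) = h.f y := by
    intro y
    change ((E (E.symm ⟨h.f y, hmem y⟩) : LinearMap.range ι.f) : X.V) = _
    rw [LinearEquiv.apply_symm_apply]
  have hgc : ∀ i y, g0 (Y.op i y) = Z.op i (g0 y) := by
    intro i y
    apply hι
    rw [hg0, h.comm, ι.comm, hg0]
  let g : Rep.Hom Y Z := ⟨g0, hgc⟩
  have e1 : ι.comp g = h := Rep.Hom.ext' hg0
  have e2 : ι.comp (hat hZn v') = hat hX v := by
    apply hom_eq_of_gen
    rw [hat_gen]
    change ι.f ((hat hZn v').f (gen q)) = v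
    rw [hat_gen, hv']
  have e3 : Fmap ρ (hat hZn v') = Fmap ρ g ∘ₗ m := by
    apply LinearMap.ext
    intro c
    apply Fmap_injective ρ ι hι
    have := LinearMap.congr_fun e c
    rw [← e1, ← e2] at this
    exact this
  have h1 : Fmap ρ (hat hZn v') ∈ S.N (Pr k q) Z := by
    rw [e3]
    exact S.left _ _ _ _ _ hm
  obtain ⟨g', -, hu⟩ := S.dec (Pr k q) Z (Fmap ρ (hat hZn v'))
  have h2 := hu (hat hZn v') (by
    change Fmap ρ (hat hZn v') - Fmap ρ (hat hZn v') ∈ _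
    rw [sub_self]
    exact S.zero _ _)
  have h3 := hu (Rep.Hom.zero _ _) (by
    change Fmap ρ (hat hZn v') - Fmap ρ (Rep.Hom.zero _ _) ∈ _
    rw [Fmap_zero, sub_zero]
    exact h1)
  have h4 : v' = 0 := by
    have := congrArg (fun g : Rep.Hom (Pr k q) Z => g.f (gen q)) (h2.trans h3.symm)
    change (hat hZn v').f (gen q) = 0 at this
    rwa [hat_gen] at this
  rw [← hv', h4, map_zero]

/-- existence -/
theorem Ctl.inf_dec {q : ℕ} {X : Rep k} (hX : Nil q X) (f : Fob ρ (Pr k q) →ₗ[R] Fob ρ X) :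
    ∃ v : X.V, f - Fmap ρ (hat hX v) ∈ S.inf q X := by
  obtain ⟨Y, hY, ι, hι, -, f0, rfl⟩ := factor ρ hX (Pr k q) f ⊥
  obtain ⟨g, hg, -⟩ := S.dec (Pr k q) Y f0
  refine ⟨ι.f (g.f (gen q)), Y, hY, ι, f0 - Fmap ρ g, hg, ?_⟩
  have e : hat hX (ι.f (g.f (gen q))) = ι.comp g := by
    apply hom_eq_of_gen
    rw [hat_gen]
    rfl
  rw [e, LinearMap.comp_sub, Fmap_comp]

/-- the module of functions from an index set -/
def Rep.pow (X : Rep k) (I : Type) : Rep k where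
  V := I → X.V
  op j := (X.op j).compLeft I

/-- projection -/
def Rep.pr (X : Rep k) (I : Type) (i : I) : Rep.Hom (X.pow I) X where
  f := (LinearMap.proj i : (I → X.V) →ₗ[k] X.V)
  comm _ _ := rfl

theorem pow_nil {q : ℕ} {X : Rep k} (hX : Nil q X) (I : Type) : Nil q (X.pow I) := by
  intro w hw v
  funext i
  have := hom_opw (X.pr I i) w v
  rw [hX w hw] at this
  exact this

/-- the homomorphism into a power -/
noncomputable def powHom {X Z : Rep k} {I : Type} (y : I → (Fob ρ Z →ₗ[R] Fob ρ X)) :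
    Fob ρ Z →ₗ[R] Fob ρ (X.pow I) where
  toFun c := fun a i => y i c a
  map_add' c d := by
    funext a
    change (fun i => y i (c + d) a) = fun i => y i c a + y i d a
    funext i
    rw [map_add]
    rfl
  map_smul' r c := by
    let z : Fob ρ (X.pow I) := fun a i => y i c a
    have h : ∀ i, Fmap ρ (X.pr I i) (r • z) = r • y i c := by
      intro i
      rw [map_smul]
      rfl
    funext a
    funext i
    have h1 := congrFun (h i) a
    change y i (r • c) a = _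
    rw [map_smul, ← h1]
    rfl

theorem pr_powHom {X Z : Rep k} {I : Type} (y : I → (Fob ρ Z →ₗ[R] Fob ρ X)) (i : I) :
    Fmap ρ (X.pr I i) ∘ₗ powHom y = y i := rfl

/-- **Uniform generation.** On a nilpotent module the ideal is generated by one homomorphism. -/
theorem Ctl.inf_single {q : ℕ} {X : Rep k} (hX : Nil q X) :
    ∃ (Z : Rep k) (_ : Module.Finite k Z.V) (m : Fob ρ (Pr k q) →ₗ[R] Fob ρ Z),
      m ∈ S.N (Pr k q) Z ∧ ∀ f ∈ S.inf q X, ∃ g : Fob ρ Z →ₗ[R] Fob ρ X, f = g ∘ₗ m := by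
  by_contra hcon
  push Not at hcon
  let mk : (d : ℕ) → (Fin 2 → Module.End k (Fin d → k)) → Rep k := fun d ops =>
    { V := Fin d → k, op := ops }
  have hmk : ∀ d ops, Module.Finite k (mk d ops).V := fun d ops =>
    inferInstanceAs (Module.Finite k (Fin d → k))
  let I : Type := Σ d : ℕ, Σ ops : Fin 2 → Module.End k (Fin d → k),
    {m : Fob ρ (Pr k q) →ₗ[R] Fob ρ (mk d ops) // m ∈ S.N (Pr k q) (mk d ops)}
  have hI : ∀ i : I, ∃ f ∈ S.inf q X, ∀ g : Fob ρ (mk i.1 i.2.1) →ₗ[R] Fob ρ X,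
      f ≠ g ∘ₗ i.2.2.1 := fun i => hcon (mk i.1 i.2.1) (hmk _ _) i.2.2.1 i.2.2.2
  choose y hy hyn using hI
  have hP := pow_nil hX I
  obtain ⟨v, hv⟩ := S.inf_dec hP (powHom y)
  have hv0 : v = 0 := by
    funext i
    have h1 := S.inf_post (X.pr I i) hv
    rw [LinearMap.comp_sub, pr_powHom, ← Fmap_comp] at h1
    have e : (X.pr I i).comp (hat hP v) = hat hX ((X.pr I i).f v) := by
      apply hom_eq_of_gen
      rw [hat_gen]
      change (X.pr I i).f ((hat hP v).f (gen q)) = _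
      rw [hat_gen]
    rw [e] at h1
    have h2 := S.inf_sub (hy i) h1
    rw [sub_sub_cancel] at h2
    exact S.inf_hat hX _ h2
  have hz : powHom y ∈ S.inf q (X.pow I) := by
    have e : hat hP v = Rep.Hom.zero _ _ := by
      apply hom_eq_of_gen
      rw [hat_gen, hv0]
      rfl
    rw [e, Fmap_zero, sub_zero] at hv
    exact hv
  obtain ⟨Y, hY, h, m, hm, e⟩ := hz
  let b := Module.finBasis k Y.V
  let E : Y.V ≃ₗ[k] (Fin (Module.finrank k Y.V) → k) := b.equivFun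
  let ops : Fin 2 → Module.End k (Fin (Module.finrank k Y.V) → k) := fun i =>
    E.toLinearMap ∘ₗ Y.op i ∘ₗ E.symm.toLinearMap
  let Y' := mk _ ops
  have : Module.Finite k Y'.V := hmk _ _
  have c1 : ∀ i v, E (Y.op i v) = E (Y.op i (E.symm (E v))) := by
    intro i v
    rw [LinearEquiv.symm_apply_apply]
  have c2 : ∀ i v, E.symm (E (Y.op i (E.symm v))) = Y.op i (E.symm v) := by
    intro i v
    rw [LinearEquiv.symm_apply_apply]
  let e1 : Rep.Hom Y Y' := ⟨E.toLinearMap, c1⟩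
  let e2 : Rep.Hom Y' Y := ⟨E.symm.toLinearMap, c2⟩
  have e21 : (h.comp e2).comp e1 = h := Rep.Hom.ext' fun v => by
    change h.f (E.symm (E v)) = h.f v
    rw [LinearEquiv.symm_apply_apply]
  let i0 : I := ⟨_, ops, Fmap ρ e1 ∘ₗ m, S.left _ _ _ _ _ hm⟩
  apply hyn i0 (Fmap ρ ((X.pr I i0).comp (h.comp e2)))
  rw [← pr_powHom y i0, e]
  change Fmap ρ (X.pr I i0) ∘ₗ (Fmap ρ h ∘ₗ m) =
    Fmap ρ ((X.pr I i0).comp (h.comp e2)) ∘ₗ (Fmap ρ e1 ∘ₗ m)
  conv_lhs => rw [← e21]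
  rfl

theorem Ctl.inf_of_comp {q : ℕ} {X : Rep k} (hX : Nil q X) {Z : Rep k} [Module.Finite k Z.V]
    {m : Fob ρ (Pr k q) →ₗ[R] Fob ρ Z} (hm : m ∈ S.N (Pr k q) Z) (g : Fob ρ Z →ₗ[R] Fob ρ X) :
    g ∘ₗ m ∈ S.inf q X := by
  obtain ⟨Y, hY, ι, hι, -, g0, rfl⟩ := factor ρ hX Z g ⊥
  exact ⟨Y, hY, ι, g0 ∘ₗ m, S.left _ _ _ _ _ hm, rfl⟩

/-- **Main algebraic statement.** -/
theorem exists_tau (hρ : Controlled ρ) {q : ℕ} {X : Rep k} (hX : Nil q X) :
    ∃ (Z : Rep k) (_ : Module.Finite k Z.V) (m : Fob ρ (Pr k q) →ₗ[R] Fob ρ Z)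
      (τ : (Fob ρ (Pr k q) →ₗ[R] Fob ρ X) → X.V),
      Function.Surjective τ ∧
      (∀ (w : List (Fin 2)) f, τ (f ∘ₗ Fmap ρ (rmul k q w)) = opw X w (τ f)) ∧
      ∀ f f', (∃ g : Fob ρ Z →ₗ[R] Fob ρ X, f - f' = g ∘ₗ m) ↔ τ f = τ f' := by
  obtain ⟨N, h1, h3, h4⟩ := hρ
  let S : Ctl ρ := ⟨N, fun X Y _ _ => (h1 X Y Y).1, fun X Y Z _ _ _ => (h1 X Y Z).2, h3, h4⟩
  obtain ⟨Z, hZ, m, hm, hs⟩ := S.inf_single hX
  choose τ hτ using S.inf_dec (ρ := ρ) hX
  have uniq : ∀ f v, f - Fmap ρ (hat hX v) ∈ S.inf q X → τ f = v := by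
    intro f v h
    have h5 := S.inf_sub h (hτ f)
    rw [sub_sub_sub_cancel_left] at h5
    have e : Fmap ρ (hat hX (τ f)) - Fmap ρ (hat hX v) = Fmap ρ (hat hX (τ f - v)) := by
      have : ∀ c, (hat hX (τ f - v)).f c = (hat hX (τ f)).f c - (hat hX v).f c := by
        intro c
        have : (hat hX (τ f - v)).f = (hat hX (τ f)).f - (hat hX v).f := Pr_ext fun w => by
          have g1 := Pr_opw (k := k) q w.1 w.2
          have g2 : (⟨w.1, w.2⟩ : Wd q) = w := rfl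
          rw [g2] at g1
          rw [← g1, LinearMap.sub_apply, hom_opw, hom_opw, hom_opw, hat_gen, hat_gen, hat_gen,
            map_sub]
        rw [this, LinearMap.sub_apply]
      apply LinearMap.ext
      intro c
      funext i
      exact (this (c i)).symm
    rw [e] at h5
    exact sub_eq_zero.1 (S.inf_hat hX _ h5)
  refine ⟨Z, hZ, m, τ, ?_, ?_, ?_⟩
  · intro v
    refine ⟨Fmap ρ (hat hX v), uniq _ _ ?_⟩
    rw [sub_self]
    have := S.inf_sub (hτ 0) (hτ 0)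
    rwa [sub_self] at this
  · intro w f
    apply uniq
    rw [← hat_comp_rmul, Fmap_comp, ← LinearMap.sub_comp]
    exact S.inf_pre (hτ f) _
  · intro f f'
    constructor
    · rintro ⟨g, hg⟩
      have h5 := S.inf_of_comp hX hm g
      rw [← hg] at h5
      apply uniq
      have := S.inf_add h5 (hτ f')
      rwa [sub_add_sub_cancel] at this
    · intro h
      apply hs
      have h5 := S.inf_sub (hτ f) (hτ f')
      rwa [h, sub_sub_sub_cancel_right] at h5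

end Run7.h777
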