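import Pool.Agent.Run7.h777.Syntax

/-!
# Definable predicates on all modules
-/

set_option autoImplicit false

namespace Run7.h777

variable {R : Type} [Ring R]

/-- the function is given by a term with variables below `n` -/
def TD (R : Type) [Ring R] (n : ℕ)
    (t : ∀ (M : Type) [AddCommGroup M] [Module R M], (ℕ → M) → M) : Prop :=
  ∃ τ : Tm R, τ.bd n ∧ ∀ (M : Type) [AddCommGroup M] [Module R M] (v : ℕ → M), τ.eval v = t M v

/-- the predicate is given by a formula with free variables below `n` -/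
def FD (R : Type) [Ring R] (n : ℕ)
    (P : ∀ (M : Type) [AddCommGroup M] [Module R M], (ℕ → M) → Prop) : Prop :=
  ∃ φ : Fm R, φ.bd n ∧ ∀ (M : Type) [AddCommGroup M] [Module R M] (v : ℕ → M),
    φ.holds v ↔ P M v

theorem TD.var {n i : ℕ} (h : i < n) : TD R n (fun _ _ _ v => v i) :=
  ⟨.var i, h, fun _ _ _ _ => rfl⟩

theorem TD.zero {n : ℕ} : TD R n (fun _ _ _ _ => 0) :=
  ⟨.zero, trivial, fun _ _ _ _ => rfl⟩

theorem TD.add {n : ℕ} {s t : ∀ (M : Type) [AddCommGroup M] [Module R M], (ℕ → M) → M}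
    (hs : TD R n s) (ht : TD R n t) : TD R n (fun M _ _ v => s M v + t M v) := by
  obtain ⟨σ, h1, h2⟩ := hs
  obtain ⟨τ, h3, h4⟩ := ht
  exact ⟨.add σ τ, ⟨h1, h3⟩, fun M _ _ v => by simp [Tm.eval, h2, h4]⟩

theorem TD.neg {n : ℕ} {s : ∀ (M : Type) [AddCommGroup M] [Module R M], (ℕ → M) → M}
    (hs : TD R n s) : TD R n (fun M _ _ v => - s M v) := by
  obtain ⟨σ, h1, h2⟩ := hs
  exact ⟨.neg σ, h1, fun M _ _ v => by simp [Tm.eval, h2]⟩

theorem TD.sub {n : ℕ} {s t : ∀ (M : Type) [AddCommGroup M] [Module R M], (ℕ → M) → M}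
    (hs : TD R n s) (ht : TD R n t) : TD R n (fun M _ _ v => s M v - t M v) := by
  obtain ⟨σ, h1, h2⟩ := hs
  obtain ⟨τ, h3, h4⟩ := ht
  exact ⟨.add σ (.neg τ), ⟨h1, h3⟩, fun M _ _ v => by
    simp [Tm.eval, h2, h4, sub_eq_add_neg]⟩

theorem TD.smul {n : ℕ} (r : R) {s : ∀ (M : Type) [AddCommGroup M] [Module R M], (ℕ → M) → M}
    (hs : TD R n s) : TD R n (fun M _ _ v => r • s M v) := by
  obtain ⟨σ, h1, h2⟩ := hs
  exact ⟨.smul r σ, h1, fun M _ _ v => by simp [Tm.eval, h2]⟩

theorem TD.sum {n : ℕ} {ι : Type} (F : Finset ι)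
    {s : ι → ∀ (M : Type) [AddCommGroup M] [Module R M], (ℕ → M) → M}
    (hs : ∀ i, TD R n (s i)) : TD R n (fun M _ _ v => ∑ i ∈ F, s i M v) := by
  classical
  induction F using Finset.induction_on with
  | empty => simpa using TD.zero
  | insert a F ha ih =>
    obtain ⟨τ, h1, h2⟩ := (hs a).add ih
    exact ⟨τ, h1, fun M _ _ v => by rw [h2]; beta_reduce; rw [Finset.sum_insert ha]⟩

theorem FD.eq {n : ℕ} {s t : ∀ (M : Type) [AddCommGroup M] [Module R M], (ℕ → M) → M}
    (hs : TD R n s) (ht : TD R n t) : FD R n (fun M _ _ v => s M v = t M v) := by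
  obtain ⟨σ, h1, h2⟩ := hs
  obtain ⟨τ, h3, h4⟩ := ht
  exact ⟨.eq σ τ, ⟨h1, h3⟩, fun M _ _ v => by simp [Fm.holds, h2, h4]⟩

theorem FD.imp {n : ℕ} {P Q : ∀ (M : Type) [AddCommGroup M] [Module R M], (ℕ → M) → Prop}
    (hP : FD R n P) (hQ : FD R n Q) : FD R n (fun M _ _ v => P M v → Q M v) := by
  obtain ⟨σ, h1, h2⟩ := hP
  obtain ⟨τ, h3, h4⟩ := hQ
  exact ⟨.imp σ τ, ⟨h1, h3⟩, fun M _ _ v => by simp [Fm.holds, h2, h4]⟩

/-- conjunction -/
def Fm.and (φ ψ : Fm R) : Fm R := .imp (.imp φ (.imp ψ .fls)) .fls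

/-- existential quantifier -/
def Fm.ex (φ : Fm R) : Fm R := .imp (.all (.imp φ .fls)) .fls

theorem holds_and {M : Type} [AddCommGroup M] [Module R M] (v : ℕ → M) (φ ψ : Fm R) :
    (φ.and ψ).holds v ↔ φ.holds v ∧ ψ.holds v := by
  simp [Fm.and, Fm.holds]

theorem holds_ex {M : Type} [AddCommGroup M] [Module R M] (v : ℕ → M) (φ : Fm R) :
    φ.ex.holds v ↔ ∃ m : M, φ.holds (cons m v) := by
  simp [Fm.ex, Fm.holds]

theorem bd_and (n : ℕ) (φ ψ : Fm R) : (φ.and ψ).bd n ↔ φ.bd n ∧ ψ.bd n := by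
  simp [Fm.and, Fm.bd]

theorem bd_ex (n : ℕ) (φ : Fm R) : φ.ex.bd n ↔ φ.bd (n + 1) := by
  simp [Fm.ex, Fm.bd]

theorem FD.and {n : ℕ} {P Q : ∀ (M : Type) [AddCommGroup M] [Module R M], (ℕ → M) → Prop}
    (hP : FD R n P) (hQ : FD R n Q) : FD R n (fun M _ _ v => P M v ∧ Q M v) := by
  obtain ⟨σ, h1, h2⟩ := hP
  obtain ⟨τ, h3, h4⟩ := hQ
  exact ⟨σ.and τ, (bd_and _ _ _).2 ⟨h1, h3⟩, fun M _ _ v => by rw [holds_and, h2, h4]⟩

theorem FD.true {n : ℕ} : FD R n (fun _ _ _ _ => True) :=
  ⟨.imp .fls .fls, ⟨trivial, trivial⟩, fun _ _ _ _ => by simp [Fm.holds]⟩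

theorem FD.congr {n : ℕ} {P Q : ∀ (M : Type) [AddCommGroup M] [Module R M], (ℕ → M) → Prop}
    (hP : FD R n P) (h : ∀ (M : Type) [AddCommGroup M] [Module R M] (v : ℕ → M),
      P M v ↔ Q M v) : FD R n Q := by
  obtain ⟨σ, h1, h2⟩ := hP
  exact ⟨σ, h1, fun M _ _ v => (h2 M v).trans (h M v)⟩

theorem FD.forallFin {n : ℕ} {ι : Type} [Finite ι]
    {P : ι → ∀ (M : Type) [AddCommGroup M] [Module R M], (ℕ → M) → Prop}
    (hP : ∀ i, FD R n (P i)) : FD R n (fun M _ _ v => ∀ i, P i M v) := by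
  classical
  cases nonempty_fintype ι
  have key : ∀ F : Finset ι, FD R n (fun M _ _ v => ∀ i ∈ F, P i M v) := by
    intro F
    induction F using Finset.induction_on with
    | empty => exact FD.true.congr (fun M _ _ v => by simp)
    | insert a F ha ih => exact ((hP a).and ih).congr (fun M _ _ v => by simp)
  exact (key Finset.univ).congr (fun M _ _ v => by simp)

/-- the valuation which starts with the first `N` values of `x` and goes on with `v` -/
def blk {M : Type} (N : ℕ) (x v : ℕ → M) : ℕ → M := fun i => if i < N then x i else v (i - N)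

/-- a block of existential quantifiers -/
def exN (N : ℕ) (φ : Fm R) : Fm R := Fm.ex^[N] φ

/-- a block of universal quantifiers -/
def allN (N : ℕ) (φ : Fm R) : Fm R := Fm.all^[N] φ

theorem blk_succ {M : Type} (N : ℕ) (x v : ℕ → M) :
    blk (N + 1) x v = blk N x (cons (x N) v) := by
  funext i
  unfold blk
  rcases lt_trichotomy i N with h | h | h
  · rw [if_pos (by omega), if_pos h]
  · subst h
    rw [if_pos (by omega), if_neg (by omega), Nat.sub_self]
    rfl
  · rw [if_neg (by omega), if_neg (by omega)]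
    obtain ⟨j, rfl⟩ : ∃ j, i = N + 1 + j := ⟨i - (N + 1), by omega⟩
    rw [show N + 1 + j - (N + 1) = j by omega, show N + 1 + j - N = j + 1 by omega]
    rfl

theorem blk_congr {M : Type} (N : ℕ) (x y v : ℕ → M) (h : ∀ i < N, x i = y i) :
    blk N x v = blk N y v := by
  funext i
  unfold blk
  split_ifs with h1
  · exact h i h1
  · rfl

theorem blk_zero {M : Type} (x v : ℕ → M) : blk 0 x v = v := by
  funext i
  simp [blk]

theorem holds_exN {M : Type} [AddCommGroup M] [Module R M] (N : ℕ) (v : ℕ → M) (φ : Fm R) :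
    (exN N φ).holds v ↔ ∃ x : ℕ → M, φ.holds (blk N x v) := by
  induction N generalizing v with
  | zero => simp [exN, blk_zero]
  | succ N ih =>
    have h : (exN (N + 1) φ) = (exN N φ).ex := by
      unfold exN
      rw [Function.iterate_succ_apply']
    rw [h, holds_ex]
    constructor
    · rintro ⟨m, hm⟩
      obtain ⟨x, hx⟩ := (ih _).1 hm
      refine ⟨fun i => if i < N then x i else m, ?_⟩
      rw [blk_succ, if_neg (lt_irrefl N)]
      rwa [blk_congr N _ x _ (fun i hi => if_pos hi)]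
    · rintro ⟨x, hx⟩
      refine ⟨x N, (ih _).2 ⟨x, ?_⟩⟩
      rwa [← blk_succ]

theorem holds_allN {M : Type} [AddCommGroup M] [Module R M] (N : ℕ) (v : ℕ → M) (φ : Fm R) :
    (allN N φ).holds v ↔ ∀ x : ℕ → M, φ.holds (blk N x v) := by
  induction N generalizing v with
  | zero => simp [allN, blk_zero]
  | succ N ih =>
    have h : (allN (N + 1) φ) = (allN N φ).all := by
      unfold allN
      rw [Function.iterate_succ_apply']
    rw [h]
    constructor
    · intro hm x
      rw [blk_succ]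
      exact (ih _).1 (hm (x N)) x
    · intro hx m
      refine (ih _).2 fun x => ?_
      have := hx (fun i => if i < N then x i else m)
      rw [blk_succ, if_neg (lt_irrefl N)] at this
      rwa [blk_congr N _ x _ (fun i hi => if_pos hi)] at this

theorem bd_exN (N n : ℕ) (φ : Fm R) : (exN N φ).bd n ↔ φ.bd (n + N) := by
  induction N generalizing n with
  | zero => rfl
  | succ N ih =>
    have h : (exN (N + 1) φ) = (exN N φ).ex := by
      unfold exN
      rw [Function.iterate_succ_apply']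
    rw [h, bd_ex, ih, Nat.add_assoc, Nat.add_comm 1 N]

theorem bd_allN (N n : ℕ) (φ : Fm R) : (allN N φ).bd n ↔ φ.bd (n + N) := by
  induction N generalizing n with
  | zero => rfl
  | succ N ih =>
    have h : (allN (N + 1) φ) = (allN N φ).all := by
      unfold allN
      rw [Function.iterate_succ_apply']
    rw [h, show n + (N + 1) = (n + 1) + N by omega, ← ih]
    rfl

theorem FD.exB {n : ℕ} (N : ℕ)
    {P : ∀ (M : Type) [AddCommGroup M] [Module R M], (ℕ → M) → Prop}
    (hP : FD R (n + N) P) : FD R n (fun M _ _ v => ∃ x : ℕ → M, P M (blk N x v)) := by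
  obtain ⟨φ, h1, h2⟩ := hP
  refine ⟨exN N φ, (bd_exN _ _ _).2 h1, fun M _ _ v => ?_⟩
  rw [holds_exN]
  exact exists_congr fun x => h2 M _

theorem FD.allB {n : ℕ} (N : ℕ)
    {P : ∀ (M : Type) [AddCommGroup M] [Module R M], (ℕ → M) → Prop}
    (hP : FD R (n + N) P) : FD R n (fun M _ _ v => ∀ x : ℕ → M, P M (blk N x v)) := by
  obtain ⟨φ, h1, h2⟩ := hP
  refine ⟨allN N φ, (bd_allN _ _ _).2 h1, fun M _ _ v => ?_⟩
  rw [holds_allN]
  exact forall_congr' fun x => h2 M _

/-! ### codes -/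

/-- code of `and` -/
def cand (a b : ℕ) : ℕ :=
  Nat.pair 2 (Nat.pair (Nat.pair 2 (Nat.pair a (Nat.pair 2 (Nat.pair b (Nat.pair 1 0)))))
    (Nat.pair 1 0))

/-- code of `ex` -/
def cex (a : ℕ) : ℕ :=
  Nat.pair 2 (Nat.pair (Nat.pair 3 (Nat.pair 2 (Nat.pair a (Nat.pair 1 0)))) (Nat.pair 1 0))

theorem code_and (e : R → ℕ) (φ ψ : Fm R) : (φ.and ψ).code e = cand (φ.code e) (ψ.code e) := rfl

theorem code_ex (e : R → ℕ) (φ : Fm R) : φ.ex.code e = cex (φ.code e) := rfl

theorem code_exN (e : R → ℕ) (N : ℕ) (φ : Fm R) : (exN N φ).code e = cex^[N] (φ.code e) := by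
  induction N generalizing φ with
  | zero => rfl
  | succ N ih =>
    unfold exN at ih ⊢
    rw [Function.iterate_succ_apply, ih, Function.iterate_succ_apply, code_ex]

theorem code_allN (e : R → ℕ) (N : ℕ) (φ : Fm R) :
    (allN N φ).code e = (Nat.pair 3)^[N] (φ.code e) := by
  induction N generalizing φ with
  | zero => rfl
  | succ N ih =>
    unfold allN at ih ⊢
    rw [Function.iterate_succ_apply, ih, Function.iterate_succ_apply]
    rfl

theorem primrec_cand : Primrec₂ cand := by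
  unfold cand
  have h2 : Primrec₂ Nat.pair := Primrec₂.natPair
  have a1 : Primrec fun p : ℕ × ℕ => Nat.pair p.2 (Nat.pair 1 0) :=
    h2.comp Primrec.snd (Primrec.const _)
  have a2 : Primrec fun p : ℕ × ℕ => Nat.pair 2 (Nat.pair p.2 (Nat.pair 1 0)) :=
    h2.comp (Primrec.const _) a1
  have a3 : Primrec fun p : ℕ × ℕ => Nat.pair p.1 (Nat.pair 2 (Nat.pair p.2 (Nat.pair 1 0))) :=
    h2.comp Primrec.fst a2
  exact h2.comp (Primrec.const _) (h2.comp (h2.comp (Primrec.const _) a3) (Primrec.const _))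

theorem primrec_cex : Primrec cex := by
  unfold cex
  have h2 : Primrec₂ Nat.pair := Primrec₂.natPair
  exact h2.comp (Primrec.const _) (h2.comp (h2.comp (Primrec.const _) (h2.comp (Primrec.const _)
    (h2.comp Primrec.id (Primrec.const _)))) (Primrec.const _))

theorem primrec_iter {f : ℕ → ℕ} (hf : Primrec f) (N : ℕ) : Primrec (f^[N]) := by
  induction N with
  | zero => exact Primrec.id
  | succ N ih =>
    rw [Function.iterate_succ']
    exact hf.comp ih

/-- The formula obtained by prefixing the links of a word. -/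
def chi {T : Type} (N : ℕ) (link : T → Fm R) (base : Fm R) : List T → Fm R
  | [] => base
  | j :: l => exN N ((link j).and (chi N link base l))

theorem code_chi {T : Type} (e : R → ℕ) (N : ℕ) (link : T → Fm R) (base : Fm R) (l : List T) :
    (chi N link base l).code e =
      l.foldr (fun j acc => cex^[N] (cand ((link j).code e) acc)) (base.code e) := by
  induction l with
  | nil => rfl
  | cons j l ih => simp only [chi, code_exN, code_and, List.foldr_cons, ih]

theorem computable_chi {T : Type} [Primcodable T] [Finite T] (e : R → ℕ) (N : ℕ)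
    (link : T → Fm R) (base : Fm R) (W : ℕ → List T) (hW : Computable W) :
    Computable fun n => (chi N link base (W n)).code e := by
  let K : T × ℕ → ℕ := fun p => cex^[N] (cand ((link p.1).code e) p.2)
  have hlink : Primrec (fun j : T => (link j).code e) := Primrec.dom_finite _
  have hK : Primrec K :=
    (primrec_iter primrec_cex N).comp (primrec_cand.comp (hlink.comp Primrec.fst) Primrec.snd)
  have hh : Primrec₂ fun (_ : List T) (p : T × ℕ) => K p := hK.comp Primrec.snd
  have h1 : Primrec fun l : List T => l.foldr (fun j acc => K (j, acc)) (base.code e) :=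
    Primrec.list_foldr Primrec.id (Primrec.const (base.code e)) hh
  have h2 : Computable fun n => (W n).foldr (fun j acc => K (j, acc)) (base.code e) :=
    h1.to_comp.comp hW
  refine h2.of_eq fun n => ?_
  rw [code_chi]

end Run7.h777
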