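import Pool.Agent.Run7.h777.Defn

/-!
# Formulas about homomorphisms from a fixed finite-dimensional module
-/

set_option autoImplicit false

namespace Run7.h777

section

variable {k R : Type} [Field k] [Ring R] [Algebra k R] {c z d : ℕ}
  {C : Type} [AddCommGroup C] [Module R C] [Module k C] [IsScalarTower k R C]
  (b : Module.Basis (Fin c) k C) (br : Module.Basis (Fin d) k R)

/-- the tuple is the image of the basis under a homomorphism -/
def isHom {M : Type} [AddCommGroup M] [Module R M] (x : Fin c → M) : Prop :=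
  ∀ (s : Fin d) (i : Fin c),
    br s • x i = ∑ l, algebraMap k R (b.repr (br s • b i) l) • x l

/-- the value at an element -/
noncomputable def comb {M : Type} [AddCommGroup M] [Module R M] (u : C) (x : Fin c → M) : M :=
  ∑ l, algebraMap k R (b.repr u l) • x l

theorem comb_eq {M : Type} [AddCommGroup M] [Module R M] (f : C →ₗ[R] M) (x : Fin c → M)
    (hx : ∀ i, f (b i) = x i) (u : C) : comb (R := R) b u x = f u := by
  conv_rhs => rw [← b.sum_repr u]
  rw [map_sum]
  refine Finset.sum_congr rfl fun l _ => ?_
  rw [← hx, ← map_smul, algebraMap_smul]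

theorem isHom_iff {M : Type} [AddCommGroup M] [Module R M] (x : Fin c → M) :
    isHom b br x ↔ ∃ f : C →ₗ[R] M, ∀ i, f (b i) = x i := by
  constructor
  · intro h
    let _ : Module k M := Module.compHom M (algebraMap k R)
    have ht : IsScalarTower k R M := ⟨fun a r m => by
      rw [Algebra.smul_def, mul_smul]
      rfl⟩
    let f : C →ₗ[k] M := b.constr k x
    have hf : ∀ i, f (b i) = x i := fun i => b.constr_basis k x i
    have h1 : ∀ (s : Fin d) (i : Fin c), f (br s • b i) = br s • f (b i) := by
      intro s i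
      rw [hf, h s i]
      conv_lhs => rw [← b.sum_repr (br s • b i)]
      rw [map_sum]
      refine Finset.sum_congr rfl fun l _ => ?_
      rw [map_smul, hf]
      rfl
    have h2 : ∀ (r : R) (i : Fin c), f (r • b i) = r • f (b i) := by
      intro r i
      conv_lhs => rw [← br.sum_repr r]
      conv_rhs => rw [← br.sum_repr r]
      rw [Finset.sum_smul, Finset.sum_smul, map_sum]
      refine Finset.sum_congr rfl fun l _ => ?_
      rw [smul_assoc, map_smul, h1, smul_assoc]
    have h3 : ∀ (r : R) (u : C), f (r • u) = r • f u := by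
      intro r u
      conv_lhs => rw [← b.sum_repr u]
      conv_rhs => rw [← b.sum_repr u]
      rw [Finset.smul_sum, map_sum, map_sum, Finset.smul_sum]
      refine Finset.sum_congr rfl fun l _ => ?_
      have e1 : r • (b.repr u l • b l) = b.repr u l • (r • b l) := by
        rw [← algebraMap_smul R (b.repr u l) (b l), ← algebraMap_smul R (b.repr u l) (r • b l),
          ← mul_smul, ← mul_smul, Algebra.commutes]
      rw [e1, map_smul, h2, map_smul]
      rw [← algebraMap_smul R (b.repr u l) (f (b l)),
        ← algebraMap_smul R (b.repr u l) (r • f (b l)), ← mul_smul, ← mul_smul, Algebra.commutes]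
    exact ⟨{ toFun := f, map_add' := map_add f, map_smul' := h3 }, hf⟩
  · rintro ⟨f, hf⟩ s i
    have := comb_eq b f x hf (br s • b i)
    unfold comb at this
    rw [this, map_smul, hf]

/-- a tuple of variables -/
def tup {M : Type} (v : ℕ → M) (s : ℕ) : Fin c → M := fun i => v (s + i)

theorem TD_comb {n s : ℕ} (h : s + c ≤ n) (u : C) :
    TD R n (fun _ _ _ v => comb (R := R) b u (tup v s)) := by
  unfold comb
  refine TD.sum Finset.univ (s := fun l M _ _ v => algebraMap k R (b.repr u l) • tup v s l)
    fun l => TD.smul _ (TD.var (i := s + l) ?_)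
  have := l.2
  omega

theorem FD_isHom {n s : ℕ} (h : s + c ≤ n) :
    FD R n (fun _ _ _ v => isHom b br (tup v s)) := by
  unfold isHom
  refine FD.forallFin fun a => FD.forallFin fun i => FD.eq (TD.smul _ (TD.var (i := s + i) ?_)) ?_
  · have := i.2
    omega
  · exact TD_comb b h (br a • b i)

variable {Z : Type} [AddCommGroup Z] [Module R Z] [Module k Z] [IsScalarTower k R Z]
  (bz : Module.Basis (Fin z) k Z) (m : C →ₗ[R] Z) {T : Type} (s : Option T → (C →ₗ[R] C))

/-- one step, on tuples -/
def ST {M : Type} [AddCommGroup M] [Module R M] (j : Option T) (x x' : Fin c → M) : Prop :=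
  ∃ y : Fin z → M, isHom bz br y ∧ ∀ i : Fin c,
    comb (R := R) b (s j (b i)) x - comb (R := R) b (s none (b i)) x' =
      comb (R := R) bz (m (b i)) y

theorem ST_iff {M : Type} [AddCommGroup M] [Module R M] (j : Option T) (x x' : Fin c → M)
    (f f' : C →ₗ[R] M) (hf : ∀ i, f (b i) = x i) (hf' : ∀ i, f' (b i) = x' i) :
    ST b br bz m s j x x' ↔ ∃ g : Z →ₗ[R] M, f ∘ₗ s j - f' ∘ₗ s none = g ∘ₗ m := by
  unfold ST
  simp only [comb_eq b f x hf, comb_eq b f' x' hf']
  constructor
  · rintro ⟨y, hy, h⟩
    obtain ⟨g, hg⟩ := (isHom_iff bz br y).1 hy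
    refine ⟨g, ?_⟩
    apply LinearMap.ext
    intro u
    have key : ∀ u, (f ∘ₗ s j - f' ∘ₗ s none) u = (g ∘ₗ m) u := by
      intro u
      have h1 : ∀ i, (f ∘ₗ s j - f' ∘ₗ s none) (b i) = (g ∘ₗ m) (b i) := by
        intro i
        have := h i
        rw [comb_eq bz g y hg] at this
        exact this
      rw [← comb_eq b (f ∘ₗ s j - f' ∘ₗ s none) (fun i => (g ∘ₗ m) (b i)) h1 u,
        comb_eq b (g ∘ₗ m) (fun i => (g ∘ₗ m) (b i)) (fun _ => rfl) u]
    exact key u
  · rintro ⟨g, hg⟩
    refine ⟨fun i => g (bz i), (isHom_iff bz br _).2 ⟨g, fun _ => rfl⟩, fun i => ?_⟩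
    rw [comb_eq bz g _ (fun _ => rfl)]
    exact LinearMap.congr_fun hg (b i)

theorem tup_blk_lt {M : Type} (N : ℕ) (x v : ℕ → M) (s : ℕ) (h : s + c ≤ N) :
    (tup (blk N x v) s : Fin c → M) = tup x s := by
  funext i
  have := i.2
  unfold tup blk
  rw [if_pos (by omega)]

theorem tup_blk_ge {M : Type} (N : ℕ) (x v : ℕ → M) (s : ℕ) :
    (tup (blk N x v) (N + s) : Fin c → M) = tup v s := by
  funext i
  unfold tup blk
  rw [if_neg (by omega)]
  congr 1
  omega

theorem exists_tup {M : Type} [Zero M] (P : (Fin z → M) → Prop) :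
    (∃ x : ℕ → M, P (tup x 0)) ↔ ∃ y : Fin z → M, P y := by
  constructor
  · rintro ⟨x, hx⟩
    exact ⟨_, hx⟩
  · rintro ⟨y, hy⟩
    refine ⟨fun i => if h : i < z then y ⟨i, h⟩ else 0, ?_⟩
    convert hy
    funext i
    simp [tup]

theorem FD_ST {n a a' : ℕ} (h : a + c ≤ n) (h' : a' + c ≤ n) (j : Option T) :
    FD R n (fun _ _ _ v => ST b br bz m s j (tup v a) (tup v a')) := by
  have h1 : FD R (n + z) (fun _ _ _ w => isHom bz br (tup w 0) ∧ ∀ i : Fin c,
      comb (R := R) b (s j (b i)) (tup w (z + a)) -
        comb (R := R) b (s none (b i)) (tup w (z + a')) =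
      comb (R := R) bz (m (b i)) (tup w 0)) :=
    (FD_isHom bz br (by omega)).and (FD.forallFin fun i =>
      FD.eq (TD.sub (TD_comb b (by omega) _) (TD_comb b (by omega) _)) (TD_comb bz (by omega) _))
  refine (FD.exB z h1).congr fun M _ _ v => ?_
  unfold ST
  rw [← exists_tup]
  refine exists_congr fun x => ?_
  rw [tup_blk_lt z x v 0 (by omega), tup_blk_ge, tup_blk_ge]

/-- chains of steps, on tuples -/
def ChainT {M : Type} [AddCommGroup M] [Module R M] : List T → (Fin c → M) → (Fin c → M) → Prop
  | [], x, x' => ST b br bz m s none x x'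
  | j :: l, x, x' => ∃ x'' : Fin c → M, isHom b br x'' ∧ ST b br bz m s (some j) x x'' ∧
      ChainT l x'' x'

/-- the formulas for the links -/
theorem exists_link (j : T) : FD R (4 * c) (fun _ _ _ v => isHom b br (tup v 0) ∧
    ST b br bz m s (some j) (tup v (2 * c)) (tup v 0) ∧
    ∀ i : Fin c, v (c + i) = v (3 * c + i)) := by
  refine (FD_isHom b br (by omega)).and ((FD_ST b br bz m s (by omega) (by omega) _).and
    (FD.forallFin fun i => FD.eq (TD.var ?_) (TD.var ?_)))
  · have := i.2
    omega
  · have := i.2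
    omega

theorem exists_base : FD R (2 * c) (fun _ _ _ v => ST b br bz m s none (tup v 0) (tup v c)) :=
  FD_ST b br bz m s (by omega) (by omega) _

/-- the formula for a link -/
noncomputable def linkF (j : T) : Fm R := (exists_link b br bz m s j).choose

/-- the formula for the empty chain -/
noncomputable def baseF : Fm R := (exists_base b br bz m s).choose

/-- the formula for a chain -/
noncomputable def chiF (l : List T) : Fm R :=
  chi (2 * c) (linkF b br bz m s) (baseF b br bz m s) l

theorem bd_chiF (l : List T) : (chiF b br bz m s l).bd (2 * c) := by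
  induction l with
  | nil => exact (exists_base b br bz m s).choose_spec.1
  | cons j l ih =>
    change (exN (2 * c) _).bd (2 * c)
    rw [bd_exN, bd_and]
    have h1 := (exists_link b br bz m s j).choose_spec.1
    have mono : ∀ (φ : Fm R) (n n' : ℕ), n ≤ n' → φ.bd n → φ.bd n' := by
      have mt : ∀ (t : Tm R) (n n' : ℕ), n ≤ n' → t.bd n → t.bd n' := by
        intro t
        induction t with
        | var i => intro n n' h h1; exact lt_of_lt_of_le h1 h
        | zero => intro n n' h h1; trivial
        | add s t ih1 ih2 => intro n n' h h1; exact ⟨ih1 _ _ h h1.1, ih2 _ _ h h1.2⟩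
        | neg s ih1 => intro n n' h h1; exact ih1 _ _ h h1
        | smul r s ih1 => intro n n' h h1; exact ih1 _ _ h h1
      intro φ
      induction φ with
      | eq s t => intro n n' h h1; exact ⟨mt _ _ _ h h1.1, mt _ _ _ h h1.2⟩
      | fls => intro n n' h h1; trivial
      | imp φ ψ ih1 ih2 => intro n n' h h1; exact ⟨ih1 _ _ h h1.1, ih2 _ _ h h1.2⟩
      | all φ ih1 => intro n n' h h1; exact ih1 _ _ (by omega) h1
    exact ⟨mono _ (4 * c) _ (by omega) h1, mono _ (2 * c) _ (by omega) ih⟩

theorem holds_chiF {M : Type} [AddCommGroup M] [Module R M] (l : List T) (v : ℕ → M) :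
    (chiF b br bz m s l).holds v ↔ ChainT b br bz m s l (tup v 0) (tup v c) := by
  induction l generalizing v with
  | nil => exact (exists_base b br bz m s).choose_spec.2 M v
  | cons j l ih =>
    change (exN (2 * c) ((linkF b br bz m s j).and (chiF b br bz m s l))).holds v ↔ _
    rw [holds_exN]
    have h1 : ∀ w : ℕ → M, (linkF b br bz m s j).holds w ↔ (isHom b br (tup w 0) ∧
        ST b br bz m s (some j) (tup w (2 * c)) (tup w 0) ∧
        ∀ i : Fin c, w (c + i) = w (3 * c + i)) :=
      fun w => (exists_link b br bz m s j).choose_spec.2 M w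
    have e3 : ∀ (x : ℕ → M) (i : ℕ), i < 2 * c → blk (2 * c) x v i = x i := by
      intro x i hi
      unfold blk
      rw [if_pos hi]
    have e4 : ∀ (x : ℕ → M) (i : ℕ), blk (2 * c) x v (2 * c + i) = v i := by
      intro x i
      unfold blk
      rw [if_neg (by omega)]
      congr 1
      omega
    constructor
    · rintro ⟨x, hx⟩
      rw [holds_and, h1, ih] at hx
      obtain ⟨⟨g1, g2, g3⟩, g4⟩ := hx
      rw [tup_blk_lt _ _ _ 0 (by omega)] at g1 g2 g4
      rw [tup_blk_lt _ _ _ c (by omega)] at g4
      have e5 := tup_blk_ge (c := c) (2 * c) x v 0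
      rw [Nat.add_zero] at e5
      rw [e5] at g2
      refine ⟨tup x 0, g1, g2, ?_⟩
      have e6 : (tup v c : Fin c → M) = tup x c := by
        funext i
        have hi := i.2
        have := g3 i
        rw [e3 x (c + i) (by omega), show 3 * c + (i : ℕ) = 2 * c + (c + i) by omega, e4] at this
        exact this.symm
      rw [e6]
      exact g4
    · rintro ⟨x'', g1, g2, g3⟩
      let x : ℕ → M := fun i => if h : i < c then x'' ⟨i, h⟩ else v i
      have hx0 : (tup x 0 : Fin c → M) = x'' := by
        funext i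
        simp [tup, x]
      have hxc : (tup x c : Fin c → M) = tup v c := by
        funext i
        simp [tup, x]
      refine ⟨x, ?_⟩
      rw [holds_and, h1, ih]
      rw [tup_blk_lt _ _ _ 0 (by omega), tup_blk_lt _ _ _ c (by omega)]
      have e5 := tup_blk_ge (c := c) (2 * c) x v 0
      rw [Nat.add_zero] at e5
      rw [e5, hx0, hxc]
      refine ⟨⟨g1, g2, fun i => ?_⟩, g3⟩
      have hi := i.2
      rw [e3 x (c + i) (by omega), show 3 * c + (i : ℕ) = 2 * c + (c + i) by omega, e4]
      exact congrFun hxc i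

end

end Run7.h777
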