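import Pool.Agent.Run7.h777.RepF

/-!
# Nilpotent modules over the free algebra: free ones, and those carrying prescribed operators
-/

set_option autoImplicit false

namespace Run7.h777

variable {k : Type} [Field k]

/-- the action of a word -/
def opw (X : Rep k) (w : List (Fin 2)) : Module.End k X.V := w.foldr (fun i f => X.op i * f) 1

theorem opw_nil (X : Rep k) : opw X [] = 1 := rfl

theorem opw_cons (X : Rep k) (i : Fin 2) (w : List (Fin 2)) (v : X.V) :
    opw X (i :: w) v = X.op i (opw X w v) := rfl

theorem hom_opw {X Y : Rep k} (g : Rep.Hom X Y) (w : List (Fin 2)) (v : X.V) :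
    g.f (opw X w v) = opw Y w (g.f v) := by
  induction w with
  | nil => rfl
  | cons i w ih => rw [opw_cons, opw_cons, g.comm, ih]

/-- words of length `q + 1` act as zero -/
def Nil (q : ℕ) (X : Rep k) : Prop := ∀ w : List (Fin 2), w.length = q + 1 → ∀ v, opw X w v = 0

/-- words of length at most `q` -/
abbrev Wd (q : ℕ) : Type := {l : List (Fin 2) // l.length ≤ q}

instance (q : ℕ) : Finite (Wd q) := (List.finite_length_le (Fin 2) q).to_subtype

open Classical in
/-- the operators on the free module -/
noncomputable def PrOp (k : Type) [Field k] (q : ℕ) (i : Fin 2) :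
    (Wd q →₀ k) →ₗ[k] (Wd q →₀ k) := Finsupp.linearCombination k
    (fun w => if h : (i :: w.1).length ≤ q then Finsupp.single (⟨i :: w.1, h⟩ : Wd q) (1 : k) else 0)

theorem PrOp_single (q : ℕ) (i : Fin 2) (w : Wd q) (h : (i :: w.1).length ≤ q) :
    PrOp k q i (Finsupp.single w 1) = Finsupp.single ⟨i :: w.1, h⟩ 1 := by
  unfold PrOp
  rw [Finsupp.linearCombination_single, dif_pos h, one_smul]

theorem PrOp_single' (q : ℕ) (i : Fin 2) (w : Wd q) (h : ¬ (i :: w.1).length ≤ q) :
    PrOp k q i (Finsupp.single w 1) = 0 := by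
  unfold PrOp
  rw [Finsupp.linearCombination_single, dif_neg h, one_smul]

theorem ext_raw {q : ℕ} {M : Type} [AddCommGroup M] [Module k M]
    {f g : (Wd q →₀ k) →ₗ[k] M}
    (h : ∀ w : Wd q, f (Finsupp.single w 1) = g (Finsupp.single w 1)) : f = g := by
  refine Finsupp.lhom_ext fun w c => ?_
  have e : (Finsupp.single w c : Wd q →₀ k) = c • Finsupp.single w (1 : k) := by simp
  rw [e, map_smul, map_smul, h]

/-- the free module with one generator in which words of length `q + 1` are zero -/
noncomputable def Pr (k : Type) [Field k] (q : ℕ) : Rep k where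
  V := Wd q →₀ k
  op := PrOp k q

instance (q : ℕ) : Module.Finite k (Pr k q).V :=
  inferInstanceAs (Module.Finite k (Wd q →₀ k))

/-- the basis vector of a word -/
noncomputable def wv (q : ℕ) (w : Wd q) : (Pr k q).V :=
  (Finsupp.single w (1 : k) : Wd q →₀ k)

theorem Pr_op (q : ℕ) (i : Fin 2) (w : Wd q) (h : (i :: w.1).length ≤ q) :
    (Pr k q).op i (wv q w) = wv q ⟨i :: w.1, h⟩ := PrOp_single q i w h

theorem Pr_op' (q : ℕ) (i : Fin 2) (w : Wd q) (h : ¬ (i :: w.1).length ≤ q) :
    (Pr k q).op i (wv q w) = 0 := PrOp_single' q i w h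

theorem Pr_ext {q : ℕ} {M : Type} [AddCommGroup M] [Module k M] {f g : (Pr k q).V →ₗ[k] M}
    (h : ∀ w : Wd q, f (wv q w) = g (wv q w)) : f = g := ext_raw h

/-- the generator -/
noncomputable def gen (q : ℕ) : (Pr k q).V := wv q ⟨[], by simp⟩

theorem Pr_opw (q : ℕ) (w : List (Fin 2)) (h : w.length ≤ q) :
    opw (Pr k q) w (gen q) = wv q ⟨w, h⟩ := by
  induction w with
  | nil => rfl
  | cons i w ih =>
    rw [opw_cons, ih (by simp at h; omega), Pr_op q i _ h]

theorem opw_append (X : Rep k) (w u : List (Fin 2)) (v : X.V) :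
    opw X (w ++ u) v = opw X w (opw X u v) := by
  induction w with
  | nil => rfl
  | cons i w ih => rw [List.cons_append, opw_cons, opw_cons, ih]

theorem opw_zero_of_length (X : Rep k) (q : ℕ) (hX : Nil q X) (w : List (Fin 2))
    (h : q < w.length) (v : X.V) : opw X w v = 0 := by
  have e : w = w.take (w.length - (q + 1)) ++ w.drop (w.length - (q + 1)) :=
    (List.take_append_drop _ _).symm
  rw [e, opw_append, hX (w.drop (w.length - (q + 1))) (by rw [List.length_drop]; omega), map_zero]

theorem Pr_nil (q : ℕ) : Nil q (Pr k q) := by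
  intro w hw v
  have gl : ∀ l : List (Fin 2), q < l.length → opw (Pr k q) l (gen q) = 0 := by
    intro l
    induction l with
    | nil => intro h; simp at h
    | cons j l ih =>
      intro h
      rw [opw_cons]
      by_cases h1 : q < l.length
      · rw [ih h1, map_zero]
      · have h2 : l.length ≤ q := not_lt.1 h1
        rw [Pr_opw q l h2]
        exact Pr_op' q j ⟨l, h2⟩ (not_le.2 h)
  have key : ∀ u : Wd q, opw (Pr k q) w (wv q u) = 0 := by
    intro u
    have h1 := Pr_opw (k := k) q u.1 u.2
    have h2 : (⟨u.1, u.2⟩ : Wd q) = u := rfl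
    rw [h2] at h1
    rw [← h1, ← opw_append]
    apply gl
    rw [List.length_append]
    omega
  have := Pr_ext (q := q) (f := opw (Pr k q) w) (g := 0) (fun u => by simp [key u])
  rw [this]
  rfl

/-- the linear map from the free module with a given value at the generator -/
noncomputable def hatL {q : ℕ} (X : Rep k) (v : X.V) : (Wd q →₀ k) →ₗ[k] X.V :=
  Finsupp.linearCombination k (fun w : Wd q => opw X w.1 v)

theorem hatL_single {q : ℕ} (X : Rep k) (v : X.V) (w : Wd q) :
    hatL X v (Finsupp.single w 1) = opw X w.1 v := by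
  unfold hatL
  rw [Finsupp.linearCombination_single, one_smul]

theorem hatL_comm {q : ℕ} {X : Rep k} (hX : Nil q X) (v : X.V) (i : Fin 2) :
    (hatL X v : (Wd q →₀ k) →ₗ[k] X.V) ∘ₗ PrOp k q i = X.op i ∘ₗ hatL X v := by
  refine ext_raw fun w => ?_
  rw [LinearMap.comp_apply, LinearMap.comp_apply, hatL_single]
  by_cases h : (i :: w.1).length ≤ q
  · rw [PrOp_single q i w h, hatL_single, opw_cons]
  · rw [PrOp_single' q i w h, map_zero, ← opw_cons, opw_zero_of_length X q hX _ (not_le.1 h)]

/-- the homomorphism from the free module with a given value at the generator -/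
noncomputable def hat {q : ℕ} {X : Rep k} (hX : Nil q X) (v : X.V) : Rep.Hom (Pr k q) X where
  f := hatL X v
  comm i u := LinearMap.congr_fun (hatL_comm hX v i) u

theorem hat_gen {q : ℕ} {X : Rep k} (hX : Nil q X) (v : X.V) : (hat hX v).f (gen q) = v :=
  hatL_single X v _

theorem hom_eq_of_gen {q : ℕ} {X : Rep k} (g h : Rep.Hom (Pr k q) X)
    (e : g.f (gen q) = h.f (gen q)) : g = h := by
  apply Rep.Hom.ext'
  intro v
  have : g.f = h.f := Pr_ext fun w => by
    have h1 := Pr_opw (k := k) q w.1 w.2
    have h2 : (⟨w.1, w.2⟩ : Wd q) = w := rfl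
    rw [h2] at h1
    rw [← h1, hom_opw, hom_opw, e]
  rw [this]

/-- composition of homomorphisms -/
def Rep.Hom.comp {X Y Z : Rep k} (g : Rep.Hom Y Z) (f : Rep.Hom X Y) : Rep.Hom X Z where
  f := g.f ∘ₗ f.f
  comm i v := by simp [f.comm, g.comm]

/-- the zero homomorphism -/
def Rep.Hom.zero (X Y : Rep k) : Rep.Hom X Y where
  f := 0
  comm i v := by simp

/-- the endomorphism of the free module which multiplies by a word on the right -/
noncomputable def rmul (k : Type) [Field k] (q : ℕ) (w : List (Fin 2)) :
    Rep.Hom (Pr k q) (Pr k q) := hat (Pr_nil q) (opw (Pr k q) w (gen q))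

theorem hat_comp_rmul {q : ℕ} {X : Rep k} (hX : Nil q X) (v : X.V) (w : List (Fin 2)) :
    (hat hX v).comp (rmul k q w) = hat hX (opw X w v) := by
  apply hom_eq_of_gen
  change (hat hX v).f ((rmul k q w).f (gen q)) = _
  unfold rmul
  rw [hat_gen, hom_opw, hat_gen, hat_gen]

/-! ### Modules with prescribed operators -/

section big

variable {A : Type} [AddCommGroup A] [Module k A] (q : ℕ)

/-- the operators on functions on words -/
def shf (i : Fin 2) : (Wd q → A) →ₗ[k] (Wd q → A) where
  toFun f u := match u with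
    | ⟨[], _⟩ => 0
    | ⟨j :: u', h⟩ => if j = i then f ⟨u', by simp at h; omega⟩ else 0
  map_add' f g := by
    funext u
    rcases u with ⟨_ | ⟨j, u'⟩, h⟩
    · simp
    · by_cases hj : j = i <;> simp [hj]
  map_smul' c f := by
    funext u
    rcases u with ⟨_ | ⟨j, u'⟩, h⟩
    · simp
    · by_cases hj : j = i <;> simp [hj]

/-- the action of words on functions on words -/
def bopw (k : Type) [Field k] {A : Type} [AddCommGroup A] [Module k A] (q : ℕ)
    (w : List (Fin 2)) : (Wd q → A) →ₗ[k] (Wd q → A) :=
  w.foldr (fun i f => shf q i ∘ₗ f) LinearMap.id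

theorem bopw_cons (i : Fin 2) (w : List (Fin 2)) (f : Wd q → A) :
    bopw k q (i :: w) f = shf (k := k) q i (bopw k q w f) := rfl

theorem bopw_append (w u : List (Fin 2)) (h : (w ++ u).length ≤ q) (f : Wd q → A) :
    bopw k q w f ⟨w ++ u, h⟩ = f ⟨u, by rw [List.length_append] at h; omega⟩ := by
  induction w with
  | nil => rfl
  | cons i w ih =>
    have h' : (w ++ u).length ≤ q := by
      rw [List.length_append] at h ⊢
      simp at h
      omega
    change (if i = i then (bopw k q w f) ⟨w ++ u, _⟩ else 0) = _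
    rw [if_pos rfl]
    exact ih h'

theorem bopw_ne (w u : List (Fin 2)) (h : u.length ≤ q) (hne : ¬ w <+: u) (f : Wd q → A) :
    bopw k q w f ⟨u, h⟩ = 0 := by
  induction w generalizing u with
  | nil => exact absurd (List.nil_prefix) hne
  | cons i w ih =>
    rcases u with _ | ⟨j, u⟩
    · rfl
    · change (if j = i then (bopw k q w f) ⟨u, _⟩ else 0) = _
      split_ifs with hj
      · subst hj
        apply ih
        intro h1
        exact hne ((List.prefix_cons_inj j).2 h1)
      · rfl

/-- the relations identifying the bottom layer with `A` by the given operators -/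
def relK (α : List (Fin 2) → Module.End k A) : Submodule k (Wd q → A) where
  carrier := {f | (∀ u : Wd q, u.1.length < q → f u = 0) ∧
    ∑ᶠ u : Wd q, α u.1 (f u) = 0}
  zero_mem' := by simp
  add_mem' := by
    rintro f g ⟨h1, h2⟩ ⟨h3, h4⟩
    refine ⟨fun u hu => by simp [h1 u hu, h3 u hu], ?_⟩
    have : (∑ᶠ u : Wd q, α u.1 ((f + g) u)) = ∑ᶠ u : Wd q, (α u.1 (f u) + α u.1 (g u)) := by
      simp
    rw [this, finsum_add_distrib (Set.toFinite _) (Set.toFinite _), h2, h4, add_zero]
  smul_mem' := by
    rintro c f ⟨h1, h2⟩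
    refine ⟨fun u hu => by simp [h1 u hu], ?_⟩
    have : (∑ᶠ u : Wd q, α u.1 ((c • f) u)) = ∑ᶠ u : Wd q, c • α u.1 (f u) := by
      simp
    rw [this, ← smul_finsum' c (Set.toFinite _), h2, smul_zero]

theorem shf_relK (α : List (Fin 2) → Module.End k A) (i : Fin 2) (f : Wd q → A)
    (hf : f ∈ relK q α) : shf (k := k) q i f = 0 := by
  funext u
  rcases u with ⟨_ | ⟨j, u'⟩, h⟩
  · rfl
  · change (if j = i then f ⟨u', _⟩ else 0) = 0
    split_ifs
    · exact hf.1 _ (by simp at h ⊢; omega)
    · rfl

/-- the module carrying the given operators -/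
noncomputable def XG (α : List (Fin 2) → Module.End k A) : Rep k where
  V := (Wd q → A) ⧸ relK q α
  op i := (relK q α).mapQ (relK q α) (shf q i) (fun f hf => by
    rw [Submodule.mem_comap, shf_relK q α i f hf]
    exact zero_mem _)

/-- the class of a function -/
noncomputable def cls (α : List (Fin 2) → Module.End k A) : (Wd q → A) →ₗ[k] (XG q α).V :=
  (relK q α).mkQ

theorem cls_surjective (α : List (Fin 2) → Module.End k A) : Function.Surjective (cls q α) :=
  (relK q α).mkQ_surjective

theorem cls_eq (α : List (Fin 2) → Module.End k A) (f g : Wd q → A) :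
    cls q α f = cls q α g ↔ f - g ∈ relK q α := Submodule.Quotient.eq _

theorem XG_op (α : List (Fin 2) → Module.End k A) (i : Fin 2) (f : Wd q → A) :
    (XG q α).op i (cls q α f) = cls q α (shf (k := k) q i f) := rfl

theorem XG_opw (α : List (Fin 2) → Module.End k A) (w : List (Fin 2)) (f : Wd q → A) :
    opw (XG q α) w (cls q α f) = cls q α (bopw k q w f) := by
  induction w with
  | nil => rfl
  | cons i w ih => rw [opw_cons, ih, XG_op, bopw_cons]

theorem XG_nil (α : List (Fin 2) → Module.End k A) : Nil q (XG q α) := by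
  intro w hw v
  obtain ⟨f, rfl⟩ := cls_surjective q α v
  rw [XG_opw]
  have : bopw k q w f = 0 := by
    funext u
    refine bopw_ne q w u.1 u.2 ?_ f
    intro h
    have := h.length_le
    have := u.2
    omega
  rw [this, map_zero]

/-- the value at the empty word -/
noncomputable def top (hq : 0 < q) (α : List (Fin 2) → Module.End k A) : (XG q α).V →ₗ[k] A :=
  (relK q α).liftQ (LinearMap.proj (⟨[], by simp⟩ : Wd q)) (fun f hf => by
    rw [LinearMap.mem_ker]
    exact hf.1 _ (by simpa using hq))

theorem top_cls (hq : 0 < q) (α : List (Fin 2) → Module.End k A) (f : Wd q → A) :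
    top q hq α (cls q α f) = f ⟨[], by simp⟩ := rfl

theorem top_surjective (hq : 0 < q) (α : List (Fin 2) → Module.End k A) :
    Function.Surjective (top q hq α) := by
  intro a
  exact ⟨cls q α (fun _ => a), rfl⟩

theorem XG_eq_iff (hq : 0 < q) (α : List (Fin 2) → Module.End k A) (w w' : List (Fin 2))
    (hw : w.length = q) (hw' : w'.length = q) (a b : (XG q α).V) :
    opw (XG q α) w a = opw (XG q α) w' b ↔ α w (top q hq α a) = α w' (top q hq α b) := by
  classical
  obtain ⟨f, rfl⟩ := cls_surjective q α a
  obtain ⟨g, rfl⟩ := cls_surjective q α b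
  rw [XG_opw, XG_opw, top_cls, top_cls, cls_eq]
  have sing : ∀ (w : List (Fin 2)) (hw : w.length = q) (f : Wd q → A) (u : Wd q),
      bopw k q w f u = if u = ⟨w, hw.le⟩ then f ⟨[], by simp⟩ else 0 := by
    intro w hw f u
    split_ifs with h
    · subst h
      have := bopw_append (k := k) q w [] (by simp [hw]) f
      simpa using this
    · refine bopw_ne q w u.1 u.2 ?_ f
      intro hp
      apply h
      apply Subtype.ext
      exact (hp.eq_of_length_le (by rw [hw]; exact u.2)).symm
  have hsum : ∑ᶠ u : Wd q, α u.1 ((bopw k q w f - bopw k q w' g) u) =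
      α w (f ⟨[], by simp⟩) - α w' (g ⟨[], by simp⟩) := by
    have : (fun u : Wd q => α u.1 ((bopw k q w f - bopw k q w' g) u)) =
        fun u : Wd q => α u.1 (if u = ⟨w, hw.le⟩ then f ⟨[], by simp⟩ else 0) -
          α u.1 (if u = ⟨w', hw'.le⟩ then g ⟨[], by simp⟩ else 0) := by
      funext u
      rw [Pi.sub_apply, sing w hw, sing w' hw', map_sub]
    rw [this, finsum_sub_distrib (Set.toFinite _) (Set.toFinite _)]
    rw [finsum_eq_single _ (⟨w, hw.le⟩ : Wd q) (fun u hu => by rw [if_neg hu, map_zero]),
      finsum_eq_single _ (⟨w', hw'.le⟩ : Wd q) (fun u hu => by rw [if_neg hu, map_zero]),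
      if_pos rfl, if_pos rfl]
  constructor
  · rintro ⟨-, h⟩
    rw [hsum] at h
    exact sub_eq_zero.1 h
  · intro h
    refine ⟨fun u hu => ?_, ?_⟩
    · rw [Pi.sub_apply, sing w hw, sing w' hw', if_neg, if_neg, sub_zero]
      · rintro rfl; simp at hu; omega
      · rintro rfl; simp at hu; omega
    · rw [hsum]
      exact sub_eq_zero.2 h

end big

end Run7.h777
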