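import Mathlib

/-!
# Chains of steps and a finitely presented group
-/

set_option autoImplicit false

namespace Run7.h777

/-- chains of steps -/
def Ch {F T : Type} (E : F → F → Prop) (St : T → F → F → Prop) : List T → F → F → Prop
  | [], f, f' => E f f'
  | j :: l, f, f' => ∃ f'', St j f f'' ∧ Ch E St l f'' f'

theorem chain_of_mem {F : Type} {m : ℕ} (E : F → F → Prop) (St : Fin m × Bool → F → F → Prop)
    (hE : Equivalence E)
    (h1 : ∀ j f f' f'', St j f f' → E f' f'' → St j f f'')
    (h2 : ∀ j f f' f'', St j f f' → St j f f'' → E f' f'')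
    (h3 : ∀ j f f' f'', E f f' → St j f f'' → St j f' f'')
    (h4 : ∀ j f, ∃ f', St j f f')
    (h5 : ∀ i b f, Ch E St [(i, b), (i, !b)] f f)
    (Rel : Finset (FreeGroup (Fin m)))
    (h6 : ∀ r ∈ Rel, ∀ f, Ch E St r.toWord f f)
    (ω : List (Fin m × Bool))
    (hω : FreeGroup.mk ω ∈ Subgroup.normalClosure (Rel : Set (FreeGroup (Fin m)))) (f : F) :
    Ch E St ω f f := by
  classical
  let S : Setoid F := ⟨E, hE⟩
  choose c hc using h4
  let t : Fin m × Bool → Quotient S → Quotient S := fun j =>
    Quotient.map (c j) (fun a b hab => h2 j b _ _ (h3 j a b _ hab (hc j a)) (hc j b))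
  have ht : ∀ j f f', t j (Quotient.mk S f) = Quotient.mk S f' ↔ St j f f' := by
    intro j f f'
    have : t j (Quotient.mk S f) = Quotient.mk S (c j f) := rfl
    rw [this, Quotient.eq]
    exact ⟨fun h => h1 j f _ _ (hc j f) h, fun h => h2 j f _ _ (hc j f) h⟩
  have hinv : ∀ i b x, t (i, !b) (t (i, b) x) = x := by
    intro i b x
    induction x using Quotient.inductionOn with
    | h f =>
      obtain ⟨f', g1, f'', g2, g3⟩ := h5 i b f
      rw [(ht _ _ _).2 g1, (ht _ _ _).2 g2]
      exact Quotient.sound g3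
  let e : Fin m → Equiv.Perm (Quotient S) := fun i =>
    { toFun := t (i, true)
      invFun := t (i, false)
      left_inv := hinv i true
      right_inv := hinv i false }
  let φ : FreeGroup (Fin m) →* (Equiv.Perm (Quotient S))ᵐᵒᵖ :=
    FreeGroup.lift (fun i => MulOpposite.op (e i))
  have hφ : ∀ (j : Fin m × Bool) (x : Quotient S), (φ (FreeGroup.mk [j])).unop x = t j x := by
    rintro ⟨i, b⟩ x
    cases b
    · have : FreeGroup.mk [(i, false)] = (FreeGroup.of i)⁻¹ := rfl
      rw [this, map_inv, FreeGroup.lift_apply_of]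
      rfl
    · have : FreeGroup.mk [(i, true)] = FreeGroup.of i := rfl
      rw [this, FreeGroup.lift_apply_of]
      rfl
  have key : ∀ (ω : List (Fin m × Bool)) (f f' : F), Ch E St ω f f' ↔
      (φ (FreeGroup.mk ω)).unop (Quotient.mk S f) = Quotient.mk S f' := by
    intro ω
    induction ω with
    | nil =>
      intro f f'
      have : FreeGroup.mk ([] : List (Fin m × Bool)) = 1 := rfl
      rw [this, map_one]
      change E f f' ↔ Quotient.mk S f = Quotient.mk S f'
      rw [Quotient.eq]
      rfl
    | cons j ω ih =>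
      intro f f'
      have e1 : FreeGroup.mk (j :: ω) = FreeGroup.mk [j] * FreeGroup.mk ω := by
        rw [FreeGroup.mul_mk]
        rfl
      rw [e1, map_mul, MulOpposite.unop_mul, Equiv.Perm.mul_apply, hφ]
      constructor
      · rintro ⟨f'', g1, g2⟩
        rw [(ht _ _ _).2 g1]
        exact (ih _ _).1 g2
      · intro h
        refine ⟨c j f, hc j f, (ih _ _).2 ?_⟩
        exact h
  have hker : Subgroup.normalClosure (Rel : Set (FreeGroup (Fin m))) ≤ φ.ker := by
    apply Subgroup.normalClosure_le_normal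
    intro r hr
    rw [SetLike.mem_coe, MonoidHom.mem_ker]
    apply MulOpposite.unop_injective
    apply Equiv.ext
    intro x
    induction x using Quotient.inductionOn with
    | h f =>
      have := (key _ _ _).1 (h6 r hr f)
      rw [FreeGroup.mk_toWord] at this
      exact this
  rw [key, MonoidHom.mem_ker.1 (hker hω)]
  rfl

/-- The regular model: chains multiply by the word on the right. -/
theorem chain_iff_model {F G k : Type} [Group G] [Field k] {m : ℕ} (E : F → F → Prop)
    (St : Fin m × Bool → F → F → Prop) (τ : F → MonoidAlgebra k G)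
    (hτ : Function.Surjective τ) (φ : FreeGroup (Fin m) →* G)
    (hE : ∀ f f', E f f' ↔ τ f = τ f')
    (hS : ∀ j f f', St j f f' ↔
      τ f * MonoidAlgebra.single (φ (FreeGroup.mk [j])) 1 = τ f')
    (ω : List (Fin m × Bool)) (f f' : F) :
    Ch E St ω f f' ↔ τ f * MonoidAlgebra.single (φ (FreeGroup.mk ω)) 1 = τ f' := by
  induction ω generalizing f with
  | nil =>
    have : FreeGroup.mk ([] : List (Fin m × Bool)) = 1 := rfl
    rw [this, map_one]
    change E f f' ↔ _
    rw [hE, ← MonoidAlgebra.one_def, mul_one]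
  | cons j ω ih =>
    have e1 : FreeGroup.mk (j :: ω) = FreeGroup.mk [j] * FreeGroup.mk ω := by
      rw [FreeGroup.mul_mk]
      rfl
    rw [e1, map_mul]
    have e2 : (MonoidAlgebra.single (φ (FreeGroup.mk [j]) * φ (FreeGroup.mk ω)) (1 : k)) =
        MonoidAlgebra.single (φ (FreeGroup.mk [j])) 1 *
          MonoidAlgebra.single (φ (FreeGroup.mk ω)) 1 := by
      rw [MonoidAlgebra.single_mul_single, mul_one]
    rw [e2, ← mul_assoc]
    constructor
    · rintro ⟨f'', g1, g2⟩
      rw [(hS _ _ _).1 g1]
      exact (ih _).1 g2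
    · intro h
      obtain ⟨f'', hf''⟩ := hτ (τ f * MonoidAlgebra.single (φ (FreeGroup.mk [j])) 1)
      refine ⟨f'', (hS _ _ _).2 hf''.symm, (ih _).2 ?_⟩
      rw [hf'']
      exact h

end Run7.h777
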