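import Pool.Agent.Run7.h777.Enc
import Pool.Agent.Run7.h777.Grp

/-!
# The sentences
-/

set_option autoImplicit false

namespace Run7.h777

section

variable {k R : Type} [Field k] [Ring R] [Algebra k R] {c z d : ℕ}
  {C : Type} [AddCommGroup C] [Module R C] [Module k C] [IsScalarTower k R C]
  (b : Module.Basis (Fin c) k C) (br : Module.Basis (Fin d) k R)
  {Z : Type} [AddCommGroup Z] [Module R Z] [Module k Z] [IsScalarTower k R Z]
  (bz : Module.Basis (Fin z) k Z) (m : C →ₗ[R] Z) {T : Type} (s : Option T → (C →ₗ[R] C))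

/-- one step, on homomorphisms -/
def SH {M : Type} [AddCommGroup M] [Module R M] (j : Option T) (f f' : C →ₗ[R] M) : Prop :=
  ∃ g : Z →ₗ[R] M, f ∘ₗ s j - f' ∘ₗ s none = g ∘ₗ m

/-- chains of steps, on homomorphisms -/
abbrev ChH {M : Type} [AddCommGroup M] [Module R M] : List T → (C →ₗ[R] M) → (C →ₗ[R] M) → Prop :=
  Ch (SH m s none) (fun j => SH m s (some j))

theorem ChainT_iff {M : Type} [AddCommGroup M] [Module R M] (l : List T) (f f' : C →ₗ[R] M) :
    ChainT b br bz m s l (fun i => f (b i)) (fun i => f' (b i)) ↔ ChH m s l f f' := by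
  induction l generalizing f with
  | nil => exact ST_iff b br bz m s none _ _ f f' (fun _ => rfl) (fun _ => rfl)
  | cons j l ih =>
    constructor
    · rintro ⟨x'', h1, h2, h3⟩
      obtain ⟨f'', hf''⟩ := (isHom_iff b br x'').1 h1
      have e : x'' = fun i => f'' (b i) := funext fun i => (hf'' i).symm
      subst e
      exact ⟨f'', (ST_iff b br bz m s _ _ _ f f'' (fun _ => rfl) (fun _ => rfl)).1 h2,
        (ih _).1 h3⟩
    · rintro ⟨f'', h1, h2⟩
      exact ⟨_, (isHom_iff b br _).2 ⟨f'', fun _ => rfl⟩,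
        (ST_iff b br bz m s _ _ _ f f'' (fun _ => rfl) (fun _ => rfl)).2 h1, (ih _).2 h2⟩

/-- the axioms, on tuples -/
def AXT (L : List (List T)) (M : Type) [AddCommGroup M] [Module R M] : Prop :=
  (∀ (j : T) (x : ℕ → M), isHom b br (tup x 0) → isHom b br (tup x c) →
    isHom b br (tup x (2 * c)) → ST b br bz m s none (tup x 0) (tup x c) →
    ST b br bz m s (some j) (tup x 0) (tup x (2 * c)) →
    ST b br bz m s (some j) (tup x c) (tup x (2 * c))) ∧
  (∀ (j : T) (x : ℕ → M), isHom b br (tup x 0) → ∃ y : ℕ → M, isHom b br (tup y 0) ∧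
    ST b br bz m s (some j) (tup x 0) (tup y 0)) ∧
  (∀ (l : Fin L.length) (x : ℕ → M), isHom b br (tup x 0) → (∀ i : Fin c, x i = x (c + i)) →
    ChainT b br bz m s (L.get l) (tup x 0) (tup x c))

/-- the axioms, on homomorphisms -/
def AXH (L : List (List T)) (M : Type) [AddCommGroup M] [Module R M] : Prop :=
  (∀ (j : T) (f f' f'' : C →ₗ[R] M), SH m s none f f' → SH m s (some j) f f'' →
    SH m s (some j) f' f'') ∧
  (∀ (j : T) (f : C →ₗ[R] M), ∃ f' : C →ₗ[R] M, SH m s (some j) f f') ∧
  (∀ l ∈ L, ∀ f : C →ₗ[R] M, ChH m s l f f)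

theorem exists_ext {M : Type} [AddCommGroup M] (x y w : Fin c → M) :
    ∃ v : ℕ → M, tup v 0 = x ∧ tup v c = y ∧ tup v (2 * c) = w := by
  refine ⟨fun i => if h : i < c then x ⟨i, h⟩ else if h2 : i < 2 * c then y ⟨i - c, by omega⟩
    else if h3 : i < 3 * c then w ⟨i - 2 * c, by omega⟩ else 0, ?_, ?_, ?_⟩
  · funext i
    simp [tup]
  · funext i
    have := i.2
    unfold tup
    beta_reduce
    rw [dif_neg (by omega), dif_pos (by omega)]
    congr 1
    apply Fin.ext
    simp
  · funext i
    have := i.2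
    unfold tup
    beta_reduce
    rw [dif_neg (by omega), dif_neg (by omega), dif_pos (by omega)]
    congr 1
    apply Fin.ext
    simp

theorem AXT_iff (L : List (List T)) (M : Type) [AddCommGroup M] [Module R M] :
    AXT b br bz m s L M ↔ AXH m s L M := by
  have hom : ∀ f : C →ₗ[R] M, isHom b br (fun i => f (b i)) :=
    fun f => (isHom_iff b br _).2 ⟨f, fun _ => rfl⟩
  have st : ∀ j (f f' : C →ₗ[R] M), ST b br bz m s j (fun i => f (b i)) (fun i => f' (b i)) ↔
      SH m s j f f' := fun j f f' =>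
    ST_iff b br bz m s j _ _ f f' (fun _ => rfl) (fun _ => rfl)
  have get : ∀ x : Fin c → M, isHom b br x → ∃ f : C →ₗ[R] M, x = fun i => f (b i) := by
    intro x hx
    obtain ⟨f, hf⟩ := (isHom_iff b br x).1 hx
    exact ⟨f, funext fun i => (hf i).symm⟩
  constructor
  · rintro ⟨h1, h2, h3⟩
    refine ⟨fun j f f' f'' g1 g2 => ?_, fun j f => ?_, fun l hl f => ?_⟩
    · obtain ⟨v, e1, e2, e3⟩ := exists_ext (fun i => f (b i)) (fun i => f' (b i))
        (fun i => f'' (b i))
      have := h1 j v (by rw [e1]; exact hom f) (by rw [e2]; exact hom f')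
        (by rw [e3]; exact hom f'') (by rw [e1, e2]; exact (st _ _ _).2 g1)
        (by rw [e1, e3]; exact (st _ _ _).2 g2)
      rw [e2, e3] at this
      exact (st _ _ _).1 this
    · obtain ⟨v, e1, -, -⟩ := exists_ext (fun i => f (b i)) (fun i => f (b i))
        (fun i => f (b i))
      obtain ⟨y, g1, g2⟩ := h2 j v (by rw [e1]; exact hom f)
      obtain ⟨f', hf'⟩ := get _ g1
      rw [e1, hf'] at g2
      exact ⟨f', (st _ _ _).1 g2⟩
    · obtain ⟨n, hn⟩ := List.mem_iff_get.1 hl
      obtain ⟨v, e1, e2, -⟩ := exists_ext (fun i => f (b i)) (fun i => f (b i))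
        (fun i => f (b i))
      have := h3 n v (by rw [e1]; exact hom f) (fun i => by
        have g1 := congrFun e1 i
        have g2 := congrFun e2 i
        simp only [tup, Nat.zero_add] at g1 g2
        rw [g1, g2])
      rw [e1, e2, hn] at this
      exact (ChainT_iff b br bz m s l f f).1 this
  · rintro ⟨h1, h2, h3⟩
    refine ⟨fun j x g1 g2 g3 g4 g5 => ?_, fun j x g1 => ?_, fun l x g1 g2 => ?_⟩
    · obtain ⟨f, hf⟩ := get _ g1
      obtain ⟨f', hf'⟩ := get _ g2
      obtain ⟨f'', hf''⟩ := get _ g3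
      rw [hf, hf'] at g4
      rw [hf, hf''] at g5
      rw [hf', hf'']
      exact (st _ _ _).2 (h1 j f f' f'' ((st _ _ _).1 g4) ((st _ _ _).1 g5))
    · obtain ⟨f, hf⟩ := get _ g1
      obtain ⟨f', hf'⟩ := h2 j f
      obtain ⟨v, e1, -, -⟩ := exists_ext (fun i => f' (b i)) (fun i => f (b i))
        (fun i => f (b i))
      exact ⟨v, by rw [e1]; exact hom f', by rw [e1, hf]; exact (st _ _ _).2 hf'⟩
    · obtain ⟨f, hf⟩ := get _ g1
      have e2 : (tup x c : Fin c → M) = fun i => f (b i) := by
        rw [← hf]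
        funext i
        have := g2 i
        simp only [tup, Nat.zero_add]
        exact this.symm
      rw [hf, e2]
      exact (ChainT_iff b br bz m s _ f f).2 (h3 _ (List.get_mem L l) f)

theorem FD_chi (l : List T) :
    FD R (2 * c) (fun _ _ _ v => ChainT b br bz m s l (tup v 0) (tup v c)) :=
  ⟨chiF b br bz m s l, bd_chiF b br bz m s l, fun M _ _ v => holds_chiF b br bz m s l v⟩

theorem FD.mono {n n' : ℕ} (h : n ≤ n')
    {P : ∀ (M : Type) [AddCommGroup M] [Module R M], (ℕ → M) → Prop} (hP : FD R n P) :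
    FD R n' P := by
  obtain ⟨φ, h1, h2⟩ := hP
  refine ⟨φ, ?_, h2⟩
  have mt : ∀ (t : Tm R) (n n' : ℕ), n ≤ n' → t.bd n → t.bd n' := by
    intro t
    induction t with
    | var i => intro n n' h h1; exact lt_of_lt_of_le h1 h
    | zero => intro n n' h h1; trivial
    | add s t ih1 ih2 => intro n n' h h1; exact ⟨ih1 _ _ h h1.1, ih2 _ _ h h1.2⟩
    | neg s ih1 => intro n n' h h1; exact ih1 _ _ h h1
    | smul r s ih1 => intro n n' h h1; exact ih1 _ _ h h1
  have mono : ∀ (φ : Fm R) (n n' : ℕ), n ≤ n' → φ.bd n → φ.bd n' := by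
    intro φ
    induction φ with
    | eq s t => intro n n' h h1; exact ⟨mt _ _ _ h h1.1, mt _ _ _ h h1.2⟩
    | fls => intro n n' h h1; trivial
    | imp φ ψ ih1 ih2 => intro n n' h h1; exact ⟨ih1 _ _ h h1.1, ih2 _ _ h h1.2⟩
    | all φ ih1 => intro n n' h h1; exact ih1 _ _ (by omega) h1
  exact mono φ n n' h h1

theorem FD_AX [Finite T] (L : List (List T)) :
    FD R 0 (fun M _ _ _ => AXT b br bz m s L M) := by
  have a1 : ∀ j : T, FD R 0 (fun M _ _ v => ∀ x : ℕ → M,
      (fun (M : Type) [AddCommGroup M] [Module R M] (x : ℕ → M) =>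
      isHom b br (tup x 0) → isHom b br (tup x c) →
      isHom b br (tup x (2 * c)) → ST b br bz m s none (tup x 0) (tup x c) →
      ST b br bz m s (some j) (tup x 0) (tup x (2 * c)) →
      ST b br bz m s (some j) (tup x c) (tup x (2 * c))) M (blk (3 * c) x v)) := fun j =>
    FD.allB (3 * c) ((FD_isHom b br (by omega)).imp ((FD_isHom b br (by omega)).imp
      ((FD_isHom b br (by omega)).imp ((FD_ST b br bz m s (by omega) (by omega) _).imp
      ((FD_ST b br bz m s (by omega) (by omega) _).imp
        (FD_ST b br bz m s (by omega) (by omega) _))))))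
  have a2 : ∀ j : T, FD R 0 (fun M _ _ v => ∀ x : ℕ → M,
      (fun (M : Type) [AddCommGroup M] [Module R M] (v : ℕ → M) => isHom b br (tup v 0) →
        ∃ y : ℕ → M, (fun (M : Type) [AddCommGroup M] [Module R M] (w : ℕ → M) =>
          isHom b br (tup w 0) ∧ ST b br bz m s (some j) (tup w c) (tup w 0)) M (blk c y v))
      M (blk c x v)) := fun j =>
    FD.allB c ((FD_isHom b br (by omega)).imp (FD.exB c ((FD_isHom b br (by omega)).and
      (FD_ST b br bz m s (by omega) (by omega) _))))
  have a3 : ∀ l : Fin L.length, FD R 0 (fun M _ _ v => ∀ x : ℕ → M,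
      (fun (M : Type) [AddCommGroup M] [Module R M] (v : ℕ → M) => isHom b br (tup v 0) →
        (∀ i : Fin c, v i = v (c + i)) →
        ChainT b br bz m s (L.get l) (tup v 0) (tup v c)) M (blk (2 * c) x v)) := fun l =>
    FD.allB (2 * c) ((FD_isHom b br (by omega)).imp ((FD.forallFin fun i =>
      FD.eq (TD.var (by have := i.2; omega)) (TD.var (by have := i.2; omega))).imp
      ((FD_chi b br bz m s _).mono (by omega))))
  refine ((FD.forallFin a1).and ((FD.forallFin a2).and (FD.forallFin a3))).congr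
    fun M _ _ v => ?_
  unfold AXT
  refine and_congr (forall_congr' fun j => forall_congr' fun x => ?_)
    (and_congr (forall_congr' fun j => forall_congr' fun x => ?_)
    (forall_congr' fun j => forall_congr' fun x => ?_))
  · beta_reduce
    rw [tup_blk_lt _ _ _ 0 (by omega), tup_blk_lt _ _ _ c (by omega),
      tup_blk_lt _ _ _ (2 * c) (by omega)]
  · beta_reduce
    rw [tup_blk_lt _ _ _ 0 (by omega)]
    refine imp_congr_right fun _ => exists_congr fun y => ?_
    have e := tup_blk_ge (c := c) c y (blk c x v) 0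
    rw [Nat.add_zero, tup_blk_lt _ _ _ 0 (by omega)] at e
    rw [e, tup_blk_lt _ _ _ 0 (by omega)]
  · beta_reduce
    rw [tup_blk_lt _ _ _ 0 (by omega), tup_blk_lt _ _ _ c (by omega)]
    have e : (∀ i : Fin c, blk (2 * c) x v i = blk (2 * c) x v (c + i)) ↔
        ∀ i : Fin c, x i = x (c + i) := by
      refine forall_congr' fun i => ?_
      have := i.2
      unfold blk
      rw [if_pos (by omega), if_pos (by omega)]
    rw [e]

theorem FD_pre : FD R (2 * c) (fun M _ _ (v : ℕ → M) => isHom b br (tup v 0) ∧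
    ∀ i : Fin c, v i = v (c + i)) :=
  (FD_isHom b br (by omega)).and (FD.forallFin fun i =>
      FD.eq (TD.var (by have := i.2; omega)) (TD.var (by have := i.2; omega)))

include b br bz in
/-- **The sentences exist and are computable.** -/
theorem exists_sentences [Finite T] [Primcodable T] (L : List (List T)) (W : ℕ → List T)
    (hW : Computable W) (e : R → ℕ) :
    ∃ σ : ℕ → Fm R, (∀ n, (σ n).bd 0) ∧ Computable (fun n => (σ n).code e) ∧
      ∀ n (M : Type) [AddCommGroup M] [Module R M] (v : ℕ → M), (σ n).holds v ↔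
        (AXH m s L M → ∀ f : C →ₗ[R] M, ChH m s (W n) f f) := by
  obtain ⟨ax, a1, a2⟩ := FD_AX b br bz m s L
  obtain ⟨pre, p1, p2⟩ := FD_pre (k := k) b br
  refine ⟨fun n => .imp ax (allN (2 * c) (.imp pre (chiF b br bz m s (W n)))), ?_, ?_, ?_⟩
  · intro n
    refine ⟨a1, ?_⟩
    rw [bd_allN, Nat.zero_add]
    exact ⟨p1, bd_chiF b br bz m s _⟩
  · have h1 := computable_chi e (2 * c) (linkF b br bz m s) (baseF b br bz m s) W hW
    have h2 : Primrec₂ Nat.pair := Primrec₂.natPair
    have h3 : Primrec fun a : ℕ => Nat.pair 2 (Nat.pair (ax.code e)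
        ((Nat.pair 3)^[2 * c] (Nat.pair 2 (Nat.pair (pre.code e) a)))) :=
      h2.comp (Primrec.const 2) (h2.comp (Primrec.const _)
        ((primrec_iter (h2.comp (Primrec.const 3) Primrec.id) (2 * c)).comp
          (h2.comp (Primrec.const 2) (h2.comp (Primrec.const _) Primrec.id))))
    refine (h3.to_comp.comp h1).of_eq fun n => ?_
    change _ = Nat.pair 2 (Nat.pair (ax.code e) ((allN (2 * c) _).code e))
    rw [code_allN]
    rfl
  · intro n M _ _ v
    change (ax.holds v → (allN (2 * c) _).holds v) ↔ _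
    have a3 : ax.holds v ↔ AXH m s L M := (a2 M v).trans (AXT_iff b br bz m s L M)
    have p3 : ∀ w : ℕ → M, pre.holds w ↔ (isHom b br (tup w 0) ∧
        ∀ i : Fin c, w i = w (c + i)) := fun w => p2 M w
    rw [a3]
    refine imp_congr_right fun _ => ?_
    rw [holds_allN]
    constructor
    · intro h f
      obtain ⟨x, e1, e2, -⟩ := exists_ext (fun i => f (b i)) (fun i => f (b i))
        (fun i => f (b i))
      have h1 : pre.holds (blk (2 * c) x v) → (chiF b br bz m s (W n)).holds (blk (2 * c) x v) :=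
        h x
      rw [p3, holds_chiF, tup_blk_lt _ _ _ 0 (by omega), tup_blk_lt _ _ _ c (by omega), e1, e2]
        at h1
      refine (ChainT_iff b br bz m s _ f f).1 (h1 ⟨(isHom_iff b br _).2 ⟨f, fun _ => rfl⟩,
        fun i => ?_⟩)
      have := i.2
      unfold blk
      rw [if_pos (by omega), if_pos (by omega)]
      have g1 := congrFun e1 i
      have g2 := congrFun e2 i
      simp only [tup, Nat.zero_add] at g1 g2
      rw [g1, g2]
    · intro h x
      change pre.holds (blk (2 * c) x v) → (chiF b br bz m s (W n)).holds (blk (2 * c) x v)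
      rw [p3, holds_chiF, tup_blk_lt _ _ _ 0 (by omega), tup_blk_lt _ _ _ c (by omega)]
      rintro ⟨h1, h2⟩
      obtain ⟨f, hf⟩ := (isHom_iff b br _).1 h1
      have e1 : (tup x 0 : Fin c → M) = fun i => f (b i) := funext fun i => (hf i).symm
      have e2 : (tup x c : Fin c → M) = fun i => f (b i) := by
        rw [← e1]
        funext i
        have g := h2 i
        have := i.2
        unfold blk at g
        rw [if_pos (by omega), if_pos (by omega)] at g
        simp only [tup, Nat.zero_add]
        exact g.symm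
      rw [e1, e2]
      exact (ChainT_iff b br bz m s _ f f).2 (h f)

end

end Run7.h777
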