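import Pool.Agent.Run7.h777.Alg
import Pool.Agent.Run7.h777.Sent
import Pool.Agent.Y669.TA.WPU

/-!
# Controlled algebras have undecidable theories of modules
-/

set_option autoImplicit false

namespace Run7.h777

open Pool.Agent.Helper270.WPSource (u u_not_computable)

theorem not_decidable {k R : Type} [Field k] [Ring R] [Algebra k R] [Module.Finite k R] {n : ℕ}
    (ρ : R →ₐ[k] Matrix (Fin n) (Fin n) (FreeAlgebra k (Fin 2))) (hρ : Controlled ρ)
    (e : R → ℕ) (he : Function.Injective e) : ¬ TheoryDecidable R e := by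
  classical
  obtain ⟨m, Rel, W, hW, hWu⟩ := Pool.Agent.Y669.TA.WPU.word_problem'
  let T := Fin m × Bool
  let NC : Subgroup (FreeGroup (Fin m)) := Subgroup.normalClosure (Rel : Set (FreeGroup (Fin m)))
  let G := FreeGroup (Fin m) ⧸ NC
  let φ : FreeGroup (Fin m) →* G := QuotientGroup.mk' NC
  let A := MonoidAlgebra k G
  let q := Fintype.card (Option T)
  have hq : 0 < q := Fintype.card_pos
  let eT : Option T ≃ Fin q := Fintype.equivFin _
  let ι : Option T → List (Fin 2) := fun o => List.ofFn (fun i : Fin q => if i = eT o then 1 else 0)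
  have hιl : ∀ o, (ι o).length = q := fun o => List.length_ofFn
  have hιi : Function.Injective ι := by
    intro o o' h
    have h1 := List.ofFn_injective h
    have h2 := congrFun h1 (eT o)
    simp only [if_true] at h2
    by_contra hne
    rw [if_neg (fun h => hne (eT.injective h))] at h2
    exact absurd h2 (by decide)
  let a0 : Option T → Module.End k A := fun o => o.elim 1
    (fun j => LinearMap.mulRight k (MonoidAlgebra.single (φ (FreeGroup.mk [j])) (1 : k)))
  let α : List (Fin 2) → Module.End k A := Function.extend ι a0 0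
  have hα : ∀ o, α (ι o) = a0 o := fun o => hιi.extend_apply _ _ _
  have hX := XG_nil (k := k) q α
  obtain ⟨Z, hZ, m', τ, hτs, hτw, hτe⟩ := exists_tau hρ hX
  let C := Fob ρ (Pr k q)
  let b := Module.finBasis k C
  let br := Module.finBasis k R
  let bz := Module.finBasis k (Fob ρ Z)
  let s : Option T → (C →ₗ[R] C) := fun o => Fmap ρ (rmul k q (ι o))
  let L : List (List T) := Rel.toList.map FreeGroup.toWord ++
    (Finset.univ : Finset T).toList.map (fun j => [(j.1, j.2), (j.1, !j.2)])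
  obtain ⟨σ, hσ1, hσ2, hσ3⟩ := exists_sentences b br bz m' s L W hW e
  -- the model
  let θ : (C →ₗ[R] Fob ρ (XG q α)) → A := fun f => top q hq α (τ f)
  have hθ : Function.Surjective θ := (top_surjective q hq α).comp hτs
  have hSH : ∀ o (f f' : C →ₗ[R] Fob ρ (XG q α)), SH m' s o f f' ↔ a0 o (θ f) = θ f' := by
    intro o f f'
    unfold SH
    rw [hτe, hτw, hτw, XG_eq_iff q hq α _ _ (hιl o) (hιl none), hα, hα]
    rfl
  have hE : ∀ f f' : C →ₗ[R] Fob ρ (XG q α), SH m' s none f f' ↔ θ f = θ f' := hSH none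
  have hSt : ∀ (j : T) (f f' : C →ₗ[R] Fob ρ (XG q α)), SH m' s (some j) f f' ↔
      θ f * MonoidAlgebra.single (φ (FreeGroup.mk [j])) (1 : k) = θ f' := fun j => hSH (some j)
  have hCh := fun (ω : List T) f f' => chain_iff_model (k := k) (SH m' s none)
    (fun j => SH m' s (some j)) θ hθ φ hE hSt ω f f'
  have hone : ∀ ω : List T, φ (FreeGroup.mk ω) = 1 → ∀ f : C →ₗ[R] Fob ρ (XG q α),
      ChH m' s ω f f := by
    intro ω h f
    refine (hCh ω f f).2 ?_
    rw [h, ← MonoidAlgebra.one_def, mul_one]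
  have hAX : AXH m' s L (Fob ρ (XG q α)) := by
    refine ⟨fun j f f' f'' h1 h2 => ?_, fun j f => ?_, fun l hl f => ?_⟩
    · rw [hSt] at h2 ⊢
      rw [← (hE f f').1 h1]
      exact h2
    · obtain ⟨f', hf'⟩ := hθ (θ f * MonoidAlgebra.single (φ (FreeGroup.mk [j])) (1 : k))
      exact ⟨f', (hSt _ _ _).2 hf'.symm⟩
    · apply hone
      rw [List.mem_append, List.mem_map, List.mem_map] at hl
      rcases hl with ⟨r, hr, rfl⟩ | ⟨j, -, rfl⟩
      · rw [FreeGroup.mk_toWord]
        exact (QuotientGroup.eq_one_iff r).2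
          (Subgroup.subset_normalClosure (Finset.mem_toList.1 hr))
      · have : FreeGroup.mk [(j.1, j.2), (j.1, !j.2)] = 1 := by
          rw [FreeGroup.one_eq_mk]
          exact Quot.sound (FreeGroup.Red.Step.not (L₁ := []) (L₂ := []))
        rw [this, map_one]
  have key : ∀ i, σ i ∈ theory R ↔ (u i).Dom := by
    intro i
    rw [← hWu i]
    constructor
    · rintro ⟨-, h⟩
      have h1 := (hσ3 i (Fob ρ (XG q α)) 0).1 (h _ 0) hAX
      obtain ⟨f, hf⟩ := hθ 1
      have h2 := (hCh (W i) f f).1 (h1 f)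
      rw [hf, one_mul, MonoidAlgebra.one_def] at h2
      have h3 : φ (FreeGroup.mk (W i)) = 1 :=
        MonoidAlgebra.of_injective (R := k) (M := G) (by simpa [MonoidAlgebra.of_apply] using h2)
      exact (QuotientGroup.eq_one_iff _).1 h3
    · intro h
      refine ⟨hσ1 i, fun M _ _ v => (hσ3 i M v).2 fun hax f => ?_⟩
      obtain ⟨x1, x2, x3⟩ := hax
      have sub : ∀ g g' : Fob ρ Z →ₗ[R] M, g ∘ₗ m' - g' ∘ₗ m' = (g - g') ∘ₗ m' :=
        fun g g' => (LinearMap.sub_comp _ _ _).symm
      refine chain_of_mem (SH m' s none) (fun j => SH m' s (some j)) ⟨?_, ?_, ?_⟩ ?_ ?_ x1 x2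
        ?_ Rel ?_ (W i) h f
      · intro f
        exact ⟨0, by rw [sub_self, LinearMap.zero_comp]⟩
      · rintro f f' ⟨g, hg⟩
        refine ⟨-g, ?_⟩
        rw [LinearMap.neg_comp, ← hg, neg_sub]
      · rintro f f' f'' ⟨g, hg⟩ ⟨g', hg'⟩
        refine ⟨g + g', ?_⟩
        rw [LinearMap.add_comp, ← hg, ← hg', sub_add_sub_cancel]
      · rintro j f f' f'' ⟨g, hg⟩ ⟨g', hg'⟩
        refine ⟨g + g', ?_⟩
        rw [LinearMap.add_comp, ← hg, ← hg', sub_add_sub_cancel]
      · rintro j f f' f'' ⟨g, hg⟩ ⟨g', hg'⟩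
        refine ⟨g' - g, ?_⟩
        rw [LinearMap.sub_comp, ← hg, ← hg', sub_sub_sub_cancel_left]
      · intro a c f
        refine x3 _ ?_ f
        refine List.mem_append_right _ (List.mem_map.2 ⟨(a, c), ?_, rfl⟩)
        exact Finset.mem_toList.2 (Finset.mem_univ _)
      · intro r hr f
        refine x3 _ ?_ f
        exact List.mem_append_left _ (List.mem_map.2 ⟨r, Finset.mem_toList.2 hr, rfl⟩)
  intro hdec
  apply u_not_computable
  refine ComputablePred.computable_of_manyOneReducible ⟨fun i => (σ i).code e, hσ2, fun i => ?_⟩ hdec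
  constructor
  · intro h
    exact ⟨σ i, (key i).2 h, rfl⟩
  · rintro ⟨ψ, hψ, hc⟩
    rw [Fm.code_inj he hc] at hψ
    exact (key i).1 hψ

end Run7.h777
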