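import Mathlib

/-!
# Modules over the free algebra in two variables, and the functor given by a free bimodule
-/

set_option autoImplicit false

namespace Run7.h777

/-- A left module over the free algebra `k⟨x, y⟩`: a `k`-vector space with two endomorphisms. -/
structure Rep (k : Type) [Field k] where
  /-- the vector space -/
  V : Type
  [grp : AddCommGroup V]
  [mod : Module k V]
  /-- the actions of `x` and of `y` -/
  op : Fin 2 → Module.End k V

attribute [instance] Rep.grp Rep.mod

variable {k R : Type} [Field k] [Ring R] [Algebra k R] {n : ℕ}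

/-- the homomorphism from the free algebra to the endomorphisms -/
noncomputable def Rep.ev (X : Rep k) : FreeAlgebra k (Fin 2) →ₐ[k] Module.End k X.V :=
  FreeAlgebra.lift k X.op

/-- Homomorphisms of modules over the free algebra. -/
structure Rep.Hom (X Y : Rep k) where
  /-- the linear map -/
  f : X.V →ₗ[k] Y.V
  comm : ∀ i v, f (X.op i v) = Y.op i (f v)

theorem Rep.Hom.ext' {X Y : Rep k} {g h : Rep.Hom X Y} (e : ∀ v, g.f v = h.f v) : g = h := by
  cases g; cases h
  congr
  exact LinearMap.ext e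

theorem Rep.Hom.ev_comm {X Y : Rep k} (g : Rep.Hom X Y) (a : FreeAlgebra k (Fin 2)) (v : X.V) :
    g.f (X.ev a v) = Y.ev a (g.f v) := by
  induction a using FreeAlgebra.induction generalizing v with
  | grade0 r => simp [Rep.ev, AlgHom.commutes, Module.algebraMap_end_apply]
  | grade1 i => simp [Rep.ev, g.comm]
  | mul a b ha hb => simp [ha, hb]
  | add a b ha hb => simp [ha, hb]

/-- The image of a module `X` over `k⟨x, y⟩` under the functor given by a bimodule that is free of
rank `n` over `k⟨x, y⟩`; the bimodule is given by the algebra homomorphism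
`ρ : R → Matₙ(k⟨x, y⟩)`. The underlying space is `Xⁿ`, and `r` acts by the matrix `ρ r`. -/
def Fob (_ : R →ₐ[k] Matrix (Fin n) (Fin n) (FreeAlgebra k (Fin 2))) (X : Rep k) : Type :=
  Fin n → X.V

variable (ρ : R →ₐ[k] Matrix (Fin n) (Fin n) (FreeAlgebra k (Fin 2)))

instance (X : Rep k) : AddCommGroup (Fob ρ X) := inferInstanceAs (AddCommGroup (Fin n → X.V))

instance (X : Rep k) : Module k (Fob ρ X) := inferInstanceAs (Module k (Fin n → X.V))

/-- the action of `R` on `Xⁿ` -/
noncomputable def act (X : Rep k) (r : R) (v : Fob ρ X) : Fob ρ X :=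
  fun i => ∑ j, X.ev (ρ r i j) (v j)

theorem act_one (X : Rep k) (v : Fob ρ X) : act ρ X 1 v = v := by
  funext i
  change ∑ j, X.ev (ρ 1 i j) (v j) = v i
  rw [map_one, Finset.sum_eq_single i]
  · simp
  · intro j _ hj
    rw [Matrix.one_apply_ne (Ne.symm hj)]
    simp
  · simp

theorem act_mul (X : Rep k) (r s : R) (v : Fob ρ X) :
    act ρ X (r * s) v = act ρ X r (act ρ X s v) := by
  funext i
  change ∑ j, X.ev (ρ (r * s) i j) (v j) =
    ∑ j, X.ev (ρ r i j) (∑ l, X.ev (ρ s j l) (v l))
  simp only [map_mul, Matrix.mul_apply, map_sum, LinearMap.sum_apply, Module.End.mul_apply]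
  exact Finset.sum_comm

theorem act_zero' (X : Rep k) (r : R) : act ρ X r 0 = 0 := by
  funext i
  change ∑ j, X.ev (ρ r i j) 0 = 0
  simp

theorem act_add' (X : Rep k) (r : R) (v w : Fob ρ X) :
    act ρ X r (v + w) = act ρ X r v + act ρ X r w := by
  funext i
  change ∑ j, X.ev (ρ r i j) (v j + w j) =
    ∑ j, X.ev (ρ r i j) (v j) + ∑ j, X.ev (ρ r i j) (w j)
  simp [Finset.sum_add_distrib]

theorem add_act (X : Rep k) (r s : R) (v : Fob ρ X) :
    act ρ X (r + s) v = act ρ X r v + act ρ X s v := by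
  funext i
  change ∑ j, X.ev (ρ (r + s) i j) (v j) =
    ∑ j, X.ev (ρ r i j) (v j) + ∑ j, X.ev (ρ s i j) (v j)
  simp [Finset.sum_add_distrib]

theorem zero_act (X : Rep k) (v : Fob ρ X) : act ρ X 0 v = 0 := by
  funext i
  change ∑ j, X.ev (ρ 0 i j) (v j) = 0
  simp

/-- `Xⁿ` is an `R`-module. -/
noncomputable instance (X : Rep k) : Module R (Fob ρ X) where
  smul := act ρ X
  one_smul := act_one ρ X
  mul_smul := act_mul ρ X
  smul_zero := act_zero' ρ X
  smul_add := act_add' ρ X
  add_smul := add_act ρ X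
  zero_smul := zero_act ρ X

theorem Fob_smul_apply (X : Rep k) (r : R) (v : Fob ρ X) (i : Fin n) :
    (r • v) i = ∑ j, X.ev (ρ r i j) (v j) := rfl

theorem algebraMap_smul_Fob (X : Rep k) (c : k) (v : Fob ρ X) :
    algebraMap k R c • v = c • v := by
  funext i
  rw [Fob_smul_apply]
  change _ = c • v i
  rw [AlgHom.commutes, Finset.sum_eq_single i]
  · simp [Matrix.algebraMap_matrix_apply, Module.algebraMap_end_apply]
  · intro j _ hj
    rw [Matrix.algebraMap_matrix_apply, if_neg (Ne.symm hj)]
    simp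
  · simp

instance (X : Rep k) : IsScalarTower k R (Fob ρ X) where
  smul_assoc c r v := by
    rw [Algebra.smul_def, mul_smul, algebraMap_smul_Fob]

/-- the functor on homomorphisms, as a function -/
def mapF {X Y : Rep k} (g : Rep.Hom X Y) (v : Fob ρ X) : Fob ρ Y := fun i => g.f (v i)

theorem mapF_add {X Y : Rep k} (g : Rep.Hom X Y) (v w : Fob ρ X) :
    mapF ρ g (v + w) = mapF ρ g v + mapF ρ g w := by
  funext i
  change g.f (v i + w i) = g.f (v i) + g.f (w i)
  simp

theorem mapF_smul {X Y : Rep k} (g : Rep.Hom X Y) (r : R) (v : Fob ρ X) :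
    mapF ρ g (r • v) = r • mapF ρ g v := by
  funext i
  change g.f (∑ j, X.ev (ρ r i j) (v j)) = ∑ j, Y.ev (ρ r i j) (g.f (v j))
  simp [g.ev_comm]

/-- The functor on homomorphisms. -/
noncomputable def Fmap {X Y : Rep k} (g : Rep.Hom X Y) : Fob ρ X →ₗ[R] Fob ρ Y where
  toFun := mapF ρ g
  map_add' := mapF_add ρ g
  map_smul' := mapF_smul ρ g

theorem Fmap_apply {X Y : Rep k} (g : Rep.Hom X Y) (v : Fob ρ X) (i : Fin n) :
    Fmap ρ g v i = g.f (v i) := rfl

/-- A family of sets of `R`-homomorphisms between the modules in the image of the functor, closed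
under addition and under composition from the left with all `R`-homomorphisms between the images
of finite-dimensional modules. -/
def LeftIdeal (N : ∀ X Y : Rep k, Set (Fob ρ X →ₗ[R] Fob ρ Y)) : Prop :=
  ∀ (X Y Z : Rep k) [Module.Finite k X.V] [Module.Finite k Y.V] [Module.Finite k Z.V],
    (∀ f ∈ N X Y, ∀ g ∈ N X Y, f + g ∈ N X Y) ∧
      ∀ (g : Fob ρ Y →ₗ[R] Fob ρ Z), ∀ f ∈ N X Y, g ∘ₗ f ∈ N X Z

/-- The family is closed under composition from the right with all `R`-homomorphisms between the
images of finite-dimensional modules. -/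
def RightIdeal (N : ∀ X Y : Rep k, Set (Fob ρ X →ₗ[R] Fob ρ Y)) : Prop :=
  ∀ (X Y Z : Rep k) [Module.Finite k X.V] [Module.Finite k Y.V] [Module.Finite k Z.V],
    ∀ (g : Fob ρ X →ₗ[R] Fob ρ Y), ∀ f ∈ N Y Z, f ∘ₗ g ∈ N X Z

/-- The functor `X ↦ Xⁿ` from finite-dimensional `k⟨x, y⟩`-modules to `R`-modules given by `ρ` is
*controlled*: there is a family `N X Y` of sets of `R`-homomorphisms `Fob ρ X → Fob ρ Y`, closed
under addition and under composition from both sides with all `R`-homomorphisms between modules in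
the image of the functor, such that every `R`-homomorphism `Fob ρ X → Fob ρ Y` is, in exactly one
way, the image of a homomorphism `X → Y` plus an element of `N X Y`. -/
def Controlled : Prop :=
  ∃ N : ∀ X Y : Rep k, Set (Fob ρ X →ₗ[R] Fob ρ Y), LeftIdeal ρ N ∧ RightIdeal ρ N ∧
    ∀ (X Y : Rep k) [Module.Finite k X.V] [Module.Finite k Y.V] (f : Fob ρ X →ₗ[R] Fob ρ Y),
      ∃! g : Rep.Hom X Y, f - Fmap ρ g ∈ N X Y

end Run7.h777
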