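import Mathlib

/-!
# First-order formulas in the language of modules over a ring, their numbering and their truth
-/

set_option autoImplicit false

namespace Run7.h777

/-- Terms of the language of left `R`-modules: variables (numbered, as de Bruijn indices), `0`,
addition, negation, and multiplication by each element of `R`. -/
inductive Tm (R : Type) : Type
  | var (i : ℕ) : Tm R
  | zero : Tm R
  | add (s t : Tm R) : Tm R
  | neg (s : Tm R) : Tm R
  | smul (r : R) (s : Tm R) : Tm R

/-- First-order formulas in the language of left `R`-modules; in `all φ` the bound variable is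
number `0` of `φ`, and variable `i + 1` of `φ` is variable `i` of `all φ`. -/
inductive Fm (R : Type) : Type
  | eq (s t : Tm R) : Fm R
  | fls : Fm R
  | imp (φ ψ : Fm R) : Fm R
  | all (φ : Fm R) : Fm R

/-- The valuation with value `m` at variable `0` and `v i` at variable `i + 1`. -/
def cons {M : Type} (m : M) (v : ℕ → M) : ℕ → M
  | 0 => m
  | i + 1 => v i

/-- The value of a term. -/
def Tm.eval {R M : Type} [Ring R] [AddCommGroup M] [Module R M] (v : ℕ → M) : Tm R → M
  | .var i => v i
  | .zero => 0
  | .add s t => s.eval v + t.eval v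
  | .neg s => - s.eval v
  | .smul r s => r • s.eval v

/-- Truth of a formula in a module. -/
def Fm.holds {R M : Type} [Ring R] [AddCommGroup M] [Module R M] : (ℕ → M) → Fm R → Prop
  | v, .eq s t => s.eval v = t.eval v
  | _, .fls => False
  | v, .imp φ ψ => φ.holds v → ψ.holds v
  | v, .all φ => ∀ m : M, φ.holds (cons m v)

/-- All variables of the term have number less than `n`. -/
def Tm.bd {R : Type} (n : ℕ) : Tm R → Prop
  | .var i => i < n
  | .zero => True
  | .add s t => s.bd n ∧ t.bd n
  | .neg s => s.bd n
  | .smul _ s => s.bd n

/-- All free variables of the formula have number less than `n`. -/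
def Fm.bd {R : Type} : ℕ → Fm R → Prop
  | n, .eq s t => s.bd n ∧ t.bd n
  | _, .fls => True
  | n, .imp φ ψ => φ.bd n ∧ ψ.bd n
  | n, .all φ => φ.bd (n + 1)

/-- The number of a term, given a numbering `e` of the ring. -/
def Tm.code {R : Type} (e : R → ℕ) : Tm R → ℕ
  | .var i => Nat.pair 0 i
  | .zero => Nat.pair 1 0
  | .add s t => Nat.pair 2 (Nat.pair (s.code e) (t.code e))
  | .neg s => Nat.pair 3 (s.code e)
  | .smul r s => Nat.pair 4 (Nat.pair (e r) (s.code e))

/-- The number of a formula, given a numbering `e` of the ring. -/
def Fm.code {R : Type} (e : R → ℕ) : Fm R → ℕ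
  | .eq s t => Nat.pair 0 (Nat.pair (s.code e) (t.code e))
  | .fls => Nat.pair 1 0
  | .imp φ ψ => Nat.pair 2 (Nat.pair (φ.code e) (ψ.code e))
  | .all φ => Nat.pair 3 (φ.code e)

/-- The theory of `R`-modules: the sentences true in every `R`-module. -/
def theory (R : Type) [Ring R] : Set (Fm R) :=
  {φ | φ.bd 0 ∧ ∀ (M : Type) [AddCommGroup M] [Module R M] (v : ℕ → M), φ.holds v}

/-- The theory of `R`-modules is decidable, with respect to the numbering `e` of `R`: the set of
the numbers of its sentences is recursive. -/
def TheoryDecidable (R : Type) [Ring R] (e : R → ℕ) : Prop :=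
  ComputablePred fun c : ℕ => ∃ φ ∈ theory R, φ.code e = c

theorem Tm.code_inj {R : Type} {e : R → ℕ} (he : Function.Injective e) :
    Function.Injective (Tm.code e) := by
  intro s
  induction s with
  | var i => intro t h; cases t <;> simp_all [Tm.code, Nat.pair_eq_pair]
  | zero => intro t h; cases t <;> simp_all [Tm.code, Nat.pair_eq_pair]
  | add s t ih1 ih2 =>
    intro u h
    cases u with
    | add s' t' =>
      simp only [Tm.code, Nat.pair_eq_pair, true_and] at h
      rw [ih1 h.1, ih2 h.2]
    | _ => simp_all [Tm.code, Nat.pair_eq_pair]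
  | neg s ih =>
    intro u h
    cases u with
    | neg s' =>
      simp only [Tm.code, Nat.pair_eq_pair, true_and] at h
      rw [ih h]
    | _ => simp_all [Tm.code, Nat.pair_eq_pair]
  | smul r s ih =>
    intro u h
    cases u with
    | smul r' s' =>
      simp only [Tm.code, Nat.pair_eq_pair, true_and] at h
      rw [he h.1, ih h.2]
    | _ => simp_all [Tm.code, Nat.pair_eq_pair]

theorem Fm.code_inj {R : Type} {e : R → ℕ} (he : Function.Injective e) :
    Function.Injective (Fm.code e) := by
  intro s
  induction s with
  | eq s t =>
    intro u h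
    cases u with
    | eq s' t' =>
      simp only [Fm.code, Nat.pair_eq_pair, true_and] at h
      rw [Tm.code_inj he h.1, Tm.code_inj he h.2]
    | _ => simp_all [Fm.code, Nat.pair_eq_pair]
  | fls => intro t h; cases t <;> simp_all [Fm.code, Nat.pair_eq_pair]
  | imp s t ih1 ih2 =>
    intro u h
    cases u with
    | imp s' t' =>
      simp only [Fm.code, Nat.pair_eq_pair, true_and] at h
      rw [ih1 h.1, ih2 h.2]
    | _ => simp_all [Fm.code, Nat.pair_eq_pair]
  | all s ih =>
    intro u h
    cases u with
    | all s' =>
      simp only [Fm.code, Nat.pair_eq_pair, true_and] at h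
      rw [ih h]
    | _ => simp_all [Fm.code, Nat.pair_eq_pair]

end Run7.h777
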